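import Mathlib

open Subgroup Pointwise

namespace Pool.Agent.H68.Cyc

variable {G : Type*} [Group G]

/-- the conjugacy class of `x` intersected with a subgroup -/
def cls (x : G) (P : Subgroup G) : Set G := {y | (∃ g : G, y = g * x * g⁻¹) ∧ y ∈ P}

lemma cls_conj {x y : G} {P : Subgroup G} (hy : y ∈ cls x P) {v : G} (hv : v * y * v⁻¹ ∈ P) :
    v * y * v⁻¹ ∈ cls x P := by
  obtain ⟨⟨g, rfl⟩, _⟩ := hy
  exact ⟨⟨v * g, by group⟩, hv⟩

/-- key step: a class element outside `D` normalizing `D`. -/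
lemma exists_normalizing [Finite G] {p : ℕ} [hp : Fact p.Prime] (x : G) (P : Subgroup G)
    (hP : IsPGroup p P) (D : Set G) (hDP : D ⊆ cls x P) (hne : D ≠ cls x P)
    (hDH : ∀ g ∈ D, ∀ y ∈ D, g * y * g⁻¹ ∈ D) :
    ∃ u ∈ cls x P, u ∉ D ∧ ∀ y ∈ D, u * y * u⁻¹ ∈ D := by
  classical
  -- stabilizer of D in P
  have hfin : D.Finite := Set.toFinite D
  have key : ∀ v : G, (∀ y ∈ D, v * y * v⁻¹ ∈ D) → ∀ y ∈ D, v⁻¹ * y * v ∈ D := by
    intro v hv
    have hinj : Function.Injective (fun y : D => (⟨v * y.1 * v⁻¹, hv y.1 y.2⟩ : D)) := by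
      intro a b hab
      have := congrArg Subtype.val hab
      simp only [mul_left_inj, mul_right_inj] at this
      exact Subtype.ext this
    have hsurj := Finite.surjective_of_injective hinj
    intro y hy
    obtain ⟨z, hz⟩ := hsurj ⟨y, hy⟩
    have hz' : v * z.1 * v⁻¹ = y := congrArg Subtype.val hz
    have : v⁻¹ * y * v = z.1 := by rw [← hz']; group
    rw [this]; exact z.2
  let N : Subgroup P :=
    { carrier := {v | ∀ y ∈ D, (v : G) * y * (v : G)⁻¹ ∈ D}
      mul_mem' := by
        intro a b ha hb y hy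
        have h1 := ha _ (hb y hy)
        have : ((a * b : P) : G) * y * ((a * b : P) : G)⁻¹
          = (a : G) * ((b : G) * y * (b : G)⁻¹) * (a : G)⁻¹ := by
          push_cast; group
        rw [this]; exact h1
      one_mem' := by intro y hy; simpa using hy
      inv_mem' := by
        intro a ha y hy
        have := key a ha y hy
        simpa using this }
  by_cases hN : N = ⊤
  · obtain ⟨u, hu, huD⟩ : ∃ u ∈ cls x P, u ∉ D := by
      by_contra hcon
      push Not at hcon
      exact hne (Set.Subset.antisymm hDP hcon)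
    refine ⟨u, hu, huD, ?_⟩
    have : (⟨u, hu.2⟩ : P) ∈ N := by rw [hN]; trivial
    exact this
  · have hPfin : Finite P := inferInstance
    have hnil : Group.IsNilpotent P := hP.isNilpotent
    have hnc := Group.normalizerCondition_of_isNilpotent (G := P)
    have hlt := hnc N (lt_top_iff_ne_top.mpr hN)
    obtain ⟨v, hv1, hv2⟩ := SetLike.exists_of_lt hlt
    -- v normalizes N, v ∉ N
    have : ∃ d ∈ D, (v : G) * d * (v : G)⁻¹ ∉ D := by
      by_contra hcon
      push Not at hcon
      exact hv2 hcon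
    obtain ⟨d, hd, hdv⟩ := this
    have hdP : d ∈ P := (hDP hd).2
    have hdN : (⟨d, hdP⟩ : P) ∈ N := fun y hy => hDH d hd y hy
    have hvd : v * ⟨d, hdP⟩ * v⁻¹ ∈ N := by
      rw [Subgroup.mem_normalizer_iff] at hv1
      exact (hv1 _).1 hdN
    refine ⟨(v : G) * d * (v : G)⁻¹, ?_, hdv, ?_⟩
    · exact cls_conj (hDP hd) (P.mul_mem (P.mul_mem v.2 hdP) (P.inv_mem v.2))
    · intro y hy
      have := hvd y hy
      simpa using this


lemma conj_inv_mem [Finite G] (D : Set G) (v : G) (hv : ∀ y ∈ D, v * y * v⁻¹ ∈ D) :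
    ∀ y ∈ D, v⁻¹ * y * v ∈ D := by
  have hinj : Function.Injective (fun y : D => (⟨v * y.1 * v⁻¹, hv y.1 y.2⟩ : D)) := by
    intro a b hab
    have := congrArg Subtype.val hab
    simp only [mul_left_inj, mul_right_inj] at this
    exact Subtype.ext this
  have hsurj := Finite.surjective_of_injective hinj
  intro y hy
  obtain ⟨z, hz⟩ := hsurj ⟨y, hy⟩
  have hz' : v * z.1 * v⁻¹ = y := congrArg Subtype.val hz
  have : v⁻¹ * y * v = z.1 := by rw [← hz']; group
  rw [this]; exact z.2

lemma mem_normalizer_closure [Finite G] (D : Set G) (v : G) (hv : ∀ y ∈ D, v * y * v⁻¹ ∈ D) :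
    v ∈ Subgroup.normalizer (closure D : Set G) := by
  have h1 : ∀ w : G, (∀ y ∈ D, w * y * w⁻¹ ∈ D) → ∀ h ∈ closure D, w * h * w⁻¹ ∈ closure D := by
    intro w hw h hh
    induction hh using closure_induction with
    | mem y hy => exact subset_closure (hw y hy)
    | one => simp
    | mul a b _ _ ha hb =>
      have : w * (a * b) * w⁻¹ = (w * a * w⁻¹) * (w * b * w⁻¹) := by group
      rw [this]; exact mul_mem ha hb
    | inv a _ ha =>
      have : w * a⁻¹ * w⁻¹ = (w * a * w⁻¹)⁻¹ := by group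
      rw [this]; exact inv_mem ha
  rw [Subgroup.mem_normalizer_iff]
  intro h
  constructor
  · exact h1 v hv h
  · intro hh
    have := h1 v⁻¹ (by intro y hy; simpa using conj_inv_mem D v hv y hy) _ hh
    have e : v⁻¹ * (v * h * v⁻¹) * v⁻¹⁻¹ = h := by group
    rwa [e] at this

/-- **Baer-Suzuki** -/
theorem baer_suzuki [Finite G] {p : ℕ} [hp : Fact p.Prime] (x : G)
    (hx : ∀ g : G, IsPGroup p (closure {x, g * x * g⁻¹} : Subgroup G)) :
    ∃ N : Subgroup G, N.Normal ∧ IsPGroup p N ∧ x ∈ N := by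
  classical
  -- any two conjugates generate a p-group
  have hx2 : ∀ g h : G, IsPGroup p (closure {g * x * g⁻¹, h * x * h⁻¹} : Subgroup G) := by
    intro g h
    have h1 := (hx (g⁻¹ * h)).map (MulAut.conj g).toMonoidHom
    rw [MonoidHom.map_closure] at h1
    have e : (⇑(MulAut.conj g).toMonoidHom '' {x, g⁻¹ * h * x * (g⁻¹ * h)⁻¹})
        = {g * x * g⁻¹, h * x * h⁻¹} := by
      rw [Set.image_pair]
      simp only [MulEquiv.coe_toMonoidHom, MulAut.conj_apply]
      congr 2
      group
    rwa [e] at h1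
  have hsub : ∀ P Q : Sylow p G, (cls x (P : Subgroup G)).ncard ≤ (cls x (Q : Subgroup G)).ncard := by
    intro P Q
    obtain ⟨g, hg⟩ := MulAction.exists_smul_eq G P Q
    refine Set.ncard_le_ncard_of_injOn (fun y => g * y * g⁻¹) ?_ ?_ (Set.toFinite _)
    · intro y hy
      have hyP := hy.2
      obtain ⟨⟨h, hh⟩, _⟩ := hy
      refine ⟨⟨g * h, by rw [hh]; group⟩, ?_⟩
      · rw [← hg]
        rw [Sylow.coe_subgroup_smul, Subgroup.mem_pointwise_smul_iff_inv_smul_mem]
        have : (MulAut.conj g)⁻¹ • (g * y * g⁻¹) = y := by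
          rw [← map_inv, MulAut.smul_def, MulAut.conj_apply]; group
        rw [this]; exact hyP
    · intro a _ b _ hab
      simpa using hab
  have hcls : ∀ P Q : Sylow p G, cls x (P : Subgroup G) = cls x (Q : Subgroup G) := by
    by_contra hcon
    push Not at hcon
    obtain ⟨P0, Q0, h0⟩ := hcon
    let S := {pq : Sylow p G × Sylow p G // cls x (pq.1 : Subgroup G) ≠ cls x (pq.2 : Subgroup G)}
    have : Nonempty S := ⟨⟨(P0, Q0), h0⟩⟩
    obtain ⟨⟨⟨P, Q⟩, hPQ⟩, hmax⟩ := Finite.exists_max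
      (fun s : S => (cls x (s.1.1 : Subgroup G) ∩ cls x (s.1.2 : Subgroup G)).ncard)
    simp only at hPQ
    have hmax' : ∀ P' Q' : Sylow p G, cls x (P' : Subgroup G) ≠ cls x (Q' : Subgroup G) →
        (cls x (P' : Subgroup G) ∩ cls x (Q' : Subgroup G)).ncard ≤
          (cls x (P : Subgroup G) ∩ cls x (Q : Subgroup G)).ncard :=
      fun P' Q' h => hmax ⟨(P', Q'), h⟩
    set D := cls x (P : Subgroup G) ∩ cls x (Q : Subgroup G) with hD
    have hDH : ∀ g ∈ D, ∀ y ∈ D, g * y * g⁻¹ ∈ D := by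
      intro g hg y hy
      exact ⟨cls_conj hy.1 (mul_mem (mul_mem hg.1.2 hy.1.2) (inv_mem hg.1.2)),
        cls_conj hy.2 (mul_mem (mul_mem hg.2.2 hy.2.2) (inv_mem hg.2.2))⟩
    have hDP : D ≠ cls x (P : Subgroup G) := by
      intro h
      apply hPQ
      refine Set.eq_of_subset_of_ncard_le ?_ (hsub Q P) (Set.toFinite _)
      rw [← h]; exact Set.inter_subset_right
    have hDQ : D ≠ cls x (Q : Subgroup G) := by
      intro h
      apply hPQ
      refine (Set.eq_of_subset_of_ncard_le ?_ (hsub P Q) (Set.toFinite _)).symm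
      rw [← h]; exact Set.inter_subset_left
    obtain ⟨u, hu, huD, hun⟩ := exists_normalizing x (P : Subgroup G) P.isPGroup' D
      Set.inter_subset_left hDP hDH
    obtain ⟨w, hw, hwD, hwn⟩ := exists_normalizing x (Q : Subgroup G) Q.isPGroup' D
      Set.inter_subset_right hDQ hDH
    have hT : IsPGroup p (closure {u, w} : Subgroup G) := by
      obtain ⟨⟨g, rfl⟩, _⟩ := hu
      obtain ⟨⟨h, rfl⟩, _⟩ := hw
      exact hx2 g h
    have hH : IsPGroup p (closure D : Subgroup G) := by
      refine P.isPGroup'.to_le ?_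
      rw [closure_le]
      exact fun y hy => hy.1.2
    have hTH : (closure {u, w} : Subgroup G) ≤ Subgroup.normalizer (closure D : Set G) := by
      rw [closure_le]
      intro y hy
      rcases hy with rfl | rfl
      · exact mem_normalizer_closure D _ hun
      · exact mem_normalizer_closure D _ hwn
    have hTH2 : IsPGroup p ((closure {u, w} ⊔ closure D : Subgroup G)) :=
      hT.to_sup_of_normal_right' hH hTH
    obtain ⟨R, hR⟩ := hTH2.exists_le_sylow
    have hDR : D ⊆ cls x (R : Subgroup G) := fun y hy =>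
      ⟨hy.1.1, hR ((le_sup_right : closure D ≤ _) (subset_closure hy))⟩
    have huR : u ∈ cls x (R : Subgroup G) :=
      ⟨hu.1, hR ((le_sup_left : closure {u, w} ≤ _) (subset_closure (by simp)))⟩
    have hwR : w ∈ cls x (R : Subgroup G) :=
      ⟨hw.1, hR ((le_sup_left : closure {u, w} ≤ _) (subset_closure (by simp)))⟩
    have e1 : cls x (P : Subgroup G) = cls x (R : Subgroup G) := by
      by_contra hne
      have h1 := hmax' P R hne
      have h2 : (insert u D).ncard ≤ (cls x (P : Subgroup G) ∩ cls x (R : Subgroup G)).ncard := by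
        refine Set.ncard_le_ncard ?_ (Set.toFinite _)
        rw [Set.insert_subset_iff]
        exact ⟨⟨hu, huR⟩, fun y hy => ⟨hy.1, hDR hy⟩⟩
      rw [Set.ncard_insert_of_notMem huD (Set.toFinite _)] at h2
      omega
    have e2 : cls x (Q : Subgroup G) = cls x (R : Subgroup G) := by
      by_contra hne
      have h1 := hmax' Q R hne
      have h2 : (insert w D).ncard ≤ (cls x (Q : Subgroup G) ∩ cls x (R : Subgroup G)).ncard := by
        refine Set.ncard_le_ncard ?_ (Set.toFinite _)
        rw [Set.insert_subset_iff]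
        exact ⟨⟨hw, hwR⟩, fun y hy => ⟨hy.2, hDR hy⟩⟩
      rw [Set.ncard_insert_of_notMem hwD (Set.toFinite _)] at h2
      omega
    exact hPQ (e1.trans e2.symm)
  -- conclusion
  obtain ⟨P⟩ : Nonempty (Sylow p G) := inferInstance
  have hall : ∀ g : G, g * x * g⁻¹ ∈ (P : Subgroup G) := by
    intro g
    obtain ⟨R, hR⟩ := (hx2 g g).exists_le_sylow
    have : g * x * g⁻¹ ∈ cls x (R : Subgroup G) := ⟨⟨g, rfl⟩, hR (subset_closure (by simp))⟩
    rw [hcls R P] at this
    exact this.2
  refine ⟨normalClosure {x}, inferInstance, ?_, subset_normalClosure (by simp)⟩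
  refine P.isPGroup'.to_le ?_
  rw [normalClosure, closure_le]
  intro y hy
  rw [Group.mem_conjugatesOfSet_iff] at hy
  obtain ⟨a, ha, hay⟩ := hy
  rw [Set.mem_singleton_iff] at ha
  subst ha
  rw [isConj_iff] at hay
  obtain ⟨c, rfl⟩ := hay
  exact hall c

end Pool.Agent.H68.Cyc
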