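import Mathlib
import Pool.Agent.H68.Cyc.Baer

open Subgroup Pointwise

namespace Pool.Agent.H68.Cyc

variable {G : Type*} [Group G]

/-- `x` lies in a normal `p`-subgroup of `H` -/
def InOp (p : ℕ) (H : Subgroup G) (x : G) : Prop :=
  ∃ N : Subgroup G, IsPGroup p N ∧ N ≤ H ∧ (∀ h ∈ H, ∀ y ∈ N, h * y * h⁻¹ ∈ N) ∧ x ∈ N

lemma baer_rel [Finite G] {p : ℕ} [hp : Fact p.Prime] (H : Subgroup G) (x : G) (hxH : x ∈ H)
    (hx : ∀ g ∈ H, IsPGroup p (closure {x, g * x * g⁻¹} : Subgroup G)) : InOp p H x := by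
  obtain ⟨N, hN1, hN2, hN3⟩ := baer_suzuki (p := p) (⟨x, hxH⟩ : H) (by
    intro g
    have h1 := hx g.1 g.2
    have e : (closure {(⟨x, hxH⟩ : H), g * ⟨x, hxH⟩ * g⁻¹} : Subgroup H).map H.subtype
        = closure {x, g.1 * x * g.1⁻¹} := by
      rw [MonoidHom.map_closure, Set.image_pair]
      rfl
    rw [← e] at h1
    have h2 := h1.comap_of_injective H.subtype H.subtype_injective
    rw [comap_map_eq_self_of_injective H.subtype_injective] at h2
    exact h2)
  refine ⟨N.map H.subtype, hN2.map _, ?_, ?_, ?_⟩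
  · exact Subgroup.map_subtype_le N
  · intro h hh y hy
    obtain ⟨z, hz, rfl⟩ := hy
    exact ⟨⟨h, hh⟩ * z * ⟨h, hh⟩⁻¹, hN1.conj_mem z hz ⟨h, hh⟩, rfl⟩
  · exact ⟨⟨x, hxH⟩, hN3, rfl⟩

lemma mem_cj {h z : G} {B : Subgroup G} : z ∈ MulAut.conj h • B ↔ h⁻¹ * z * h ∈ B := by
  rw [Subgroup.mem_pointwise_smul_iff_inv_smul_mem, ← map_inv, MulAut.smul_def, MulAut.conj_apply,
    inv_inv]

lemma card_cj (h : G) (B : Subgroup G) : Nat.card (MulAut.conj h • B : Subgroup G) = Nat.card B :=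
  (Nat.card_congr (Subgroup.equivSMul (MulAut.conj h) B).toEquiv).symm

lemma cj_comm {h : G} {B : Subgroup G} (hB : ∀ a ∈ B, ∀ b ∈ B, a * b = b * a) :
    ∀ a ∈ MulAut.conj h • B, ∀ b ∈ MulAut.conj h • B, a * b = b * a := by
  intro a ha b hb
  rw [mem_cj] at ha hb
  have := hB _ ha _ hb
  have e1 : h * ((h⁻¹ * a * h) * (h⁻¹ * b * h)) * h⁻¹ = a * b := by group
  have e2 : h * ((h⁻¹ * b * h) * (h⁻¹ * a * h)) * h⁻¹ = b * a := by group
  rw [← e1, this, e2]

lemma cj_le {h : G} {B H : Subgroup G} (hh : h ∈ H) (hB : B ≤ H) : MulAut.conj h • B ≤ H := by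
  intro z hz
  rw [mem_cj] at hz
  have := mul_mem (mul_mem hh (hB hz)) (inv_mem hh)
  have e : h * (h⁻¹ * z * h) * h⁻¹ = z := by group
  rwa [e] at this

/-- **Zenkov's theorem**, relative form. -/
theorem zenkov [Finite G] {p : ℕ} [hp : Fact p.Prime] (n : ℕ) : ∀ H : Subgroup G, Nat.card H = n →
    ∀ A B : Subgroup G, A ≤ H → B ≤ H → (∀ a ∈ A, ∀ b ∈ A, a * b = b * a) →
    (∀ a ∈ B, ∀ b ∈ B, a * b = b * a) →
    (∀ h ∈ H, Nat.card (A ⊓ B : Subgroup G) ≤ Nat.card (A ⊓ (MulAut.conj h • B) : Subgroup G)) →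
    ∀ y ∈ A ⊓ B, IsPGroup p (zpowers y) → InOp p H y := by
  induction n using Nat.strong_induction_on with
  | _ n ih =>
  intro H hn A B hAH hBH hA hB hmin y hy hyp
  by_cases hcase : ∃ x ∈ H, A ⊔ MulAut.conj x • B = H
  · obtain ⟨x, hx, hgen⟩ := hcase
    have hcent : ∀ m ∈ A ⊓ MulAut.conj x • B, ∀ h ∈ H, h * m = m * h := by
      intro m hm h hh
      have hle : A ⊔ MulAut.conj x • B ≤ centralizer {m} := by
        refine sup_le ?_ ?_
        · intro a ha
          rw [mem_centralizer_singleton_iff]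
          exact hA _ ha _ hm.1
        · intro a ha
          rw [mem_centralizer_singleton_iff]
          exact cj_comm hB _ ha _ hm.2
      rw [hgen] at hle
      have := hle hh
      rw [mem_centralizer_singleton_iff] at this
      exact this
    have hle : A ⊓ MulAut.conj x • B ≤ A ⊓ B := by
      intro m hm
      refine mem_inf.mpr ⟨hm.1, ?_⟩
      have h2 : m ∈ MulAut.conj x • B := hm.2
      rw [mem_cj] at h2
      have := hcent m hm x hx
      have e : x⁻¹ * m * x = m := by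
        rw [mul_assoc, ← this]; group
      rwa [e] at h2
    have heq : A ⊓ MulAut.conj x • B = A ⊓ B :=
      Subgroup.eq_of_le_of_card_ge hle (hmin x hx)
    rw [← heq] at hy
    refine ⟨zpowers y, hyp, ?_, ?_, mem_zpowers y⟩
    · rw [zpowers_le]; exact hAH hy.1
    · intro h hh z hz
      rw [mem_zpowers_iff] at hz
      obtain ⟨k, rfl⟩ := hz
      have h1 : Commute h y := hcent y hy h hh
      have h2 := (h1.zpow_right k).eq
      rw [h2]
      simp
  · push Not at hcase
    refine baer_rel H y (hAH hy.1) ?_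
    intro h hh
    set K := A ⊔ MulAut.conj h • B with hK
    have hAK : A ≤ K := le_sup_left
    have hBK : MulAut.conj h • B ≤ K := le_sup_right
    have hKH : K ≤ H := sup_le hAH (cj_le hh hBH)
    have hlt : Nat.card K < n := by
      rw [← hn]
      refine lt_of_le_of_ne (Subgroup.card_le_of_le hKH) ?_
      intro he
      exact hcase h hh (Subgroup.eq_of_le_of_card_ge hKH he.ge)
    -- first application
    have h1 : InOp p K y := by
      refine ih _ hlt K rfl A (B ⊓ K) hAK inf_le_right hA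
        (fun a ha b hb => hB a ha.1 b hb.1) ?_ y ⟨hy.1, hy.2, hAK hy.1⟩ hyp
      intro k hk
      have e1 : A ⊓ (B ⊓ K) = A ⊓ B := by
        rw [← inf_assoc, inf_comm A B, inf_assoc, inf_eq_left.mpr hAK]
      have e2 : A ⊓ MulAut.conj k • (B ⊓ K) = A ⊓ MulAut.conj k • B := by
        ext z
        simp only [mem_inf, mem_cj]
        constructor
        · rintro ⟨h1, h2, h3⟩
          exact ⟨h1, h2⟩
        · rintro ⟨h1, h2⟩
          exact ⟨h1, h2, mul_mem (mul_mem (inv_mem hk) (hAK h1)) hk⟩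
      rw [e1, e2]
      exact hmin k (hKH hk)
    have hyp2 : IsPGroup p (zpowers (h * y * h⁻¹)) := by
      have := hyp.map (MulAut.conj h).toMonoidHom
      rw [MonoidHom.map_zpowers] at this
      exact this
    have h2 : InOp p K (h * y * h⁻¹) := by
      have hyA : h * y * h⁻¹ ∈ MulAut.conj h • A := by
        rw [mem_cj]
        have : h⁻¹ * (h * y * h⁻¹) * h = y := by group
        rw [this]; exact hy.1
      have hyB : h * y * h⁻¹ ∈ MulAut.conj h • B := by
        rw [mem_cj]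
        have : h⁻¹ * (h * y * h⁻¹) * h = y := by group
        rw [this]; exact hy.2
      refine ih _ hlt K rfl ((MulAut.conj h • A) ⊓ K) (MulAut.conj h • B) inf_le_right hBK
        (fun a ha b hb => cj_comm hA a ha.1 b hb.1) (cj_comm hB) ?_ (h * y * h⁻¹)
        ⟨⟨hyA, hBK hyB⟩, hyB⟩ hyp2
      intro k hk
      have e1 : (MulAut.conj h • A) ⊓ K ⊓ MulAut.conj h • B = MulAut.conj h • (A ⊓ B) := by
        ext z
        simp only [mem_inf, mem_cj]
        constructor
        · rintro ⟨⟨h1, h2⟩, h3⟩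
          exact ⟨h1, h3⟩
        · rintro ⟨h1, h2⟩
          refine ⟨⟨h1, hBK ?_⟩, h2⟩
          rw [mem_cj]; exact h2
      have e2 : (MulAut.conj h • A) ⊓ K ⊓ MulAut.conj k • MulAut.conj h • B
          = MulAut.conj h • (A ⊓ MulAut.conj (h⁻¹ * k * h) • B) := by
        ext z
        simp only [mem_inf, mem_cj]
        have e3 : (h⁻¹ * k * h)⁻¹ * (h⁻¹ * z * h) * (h⁻¹ * k * h) = h⁻¹ * (k⁻¹ * z * k) * h := by
          group
        rw [e3]
        constructor
        · rintro ⟨⟨h1, h2⟩, h3⟩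
          exact ⟨h1, h3⟩
        · rintro ⟨h1, h2⟩
          refine ⟨⟨h1, ?_⟩, h2⟩
          have : k⁻¹ * z * k ∈ K := hBK (by rw [mem_cj]; exact h2)
          have h4 := mul_mem (mul_mem hk this) (inv_mem hk)
          have e5 : k * (k⁻¹ * z * k) * k⁻¹ = z := by group
          rwa [e5] at h4
      rw [e1, e2, card_cj, card_cj]
      exact hmin _ (mul_mem (mul_mem (inv_mem hh) (hKH hk)) hh)
    obtain ⟨N1, hN1, hN1K, hN1n, hyN1⟩ := h1
    obtain ⟨N2, hN2, hN2K, hN2n, hyN2⟩ := h2
    have hsup : IsPGroup p (N2 ⊔ N1 : Subgroup G) := by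
      refine hN2.to_sup_of_normal_right' hN1 ?_
      intro z hz
      rw [Subgroup.mem_normalizer_iff]
      intro w
      constructor
      · intro hw; exact hN1n z (hN2K hz) w hw
      · intro hw
        have := hN1n z⁻¹ (inv_mem (hN2K hz)) _ hw
        have e : z⁻¹ * (z * w * z⁻¹) * z⁻¹⁻¹ = w := by group
        rwa [e] at this
    refine hsup.to_le ?_
    rw [closure_le]
    intro z hz
    rcases hz with rfl | rfl
    · exact (le_sup_right : N1 ≤ _) hyN1
    · exact (le_sup_left : N2 ≤ _) hyN2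

/-- no nontrivial normal subgroup of prime power order -/
def NoP (G : Type*) [Group G] : Prop :=
  ∀ p : ℕ, p.Prime → ∀ N : Subgroup G, N.Normal → IsPGroup p N → N = ⊥

theorem exists_conj_disjoint [Finite G] (hG : NoP G) (A : Subgroup G)
    (hA : ∀ a ∈ A, ∀ b ∈ A, a * b = b * a) :
    ∃ g : G, A ⊓ MulAut.conj g • A = ⊥ := by
  obtain ⟨g, hg⟩ := Finite.exists_min (fun g : G => Nat.card (A ⊓ MulAut.conj g • A : Subgroup G))
  refine ⟨g, ?_⟩
  by_contra hne
  have hcard : Nat.card (A ⊓ MulAut.conj g • A : Subgroup G) ≠ 1 := by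
    intro h
    exact hne (Subgroup.card_eq_one.mp h)
  obtain ⟨p, hp, hpd⟩ := Nat.exists_prime_and_dvd hcard
  have := Fact.mk hp
  obtain ⟨y, hy⟩ := exists_prime_orderOf_dvd_card' p hpd
  have hy1 : orderOf (y : G) = p := by rw [← hy]; exact Subgroup.orderOf_coe y
  have hyp : IsPGroup p (zpowers (y : G)) := by
    refine IsPGroup.of_card (n := 1) ?_
    rw [Nat.card_zpowers, hy1, pow_one]
  obtain ⟨N, hN1, _, hN3, hN4⟩ := zenkov (p := p) (Nat.card (⊤ : Subgroup G)) ⊤ rfl A
    (MulAut.conj g • A) le_top le_top hA (cj_comm hA) (by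
      intro h _
      have := hg (h * g)
      rw [map_mul, mul_smul] at this
      exact this) y y.2 hyp
  have hNn : N.Normal := ⟨fun n hn g => hN3 g trivial n hn⟩
  have := hG p hp N hNn hN1
  rw [this, Subgroup.mem_bot] at hN4
  rw [hN4, orderOf_one] at hy1
  exact hp.one_lt.ne hy1

/-- an abelian subgroup of a group without normal `p`-subgroups is small -/
theorem card_sq_le [Finite G] (hG : NoP G) (A : Subgroup G)
    (hA : ∀ a ∈ A, ∀ b ∈ A, a * b = b * a) : Nat.card A * Nat.card A ≤ Nat.card G := by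
  obtain ⟨g, hg⟩ := exists_conj_disjoint hG A hA
  have hinj := Subgroup.mul_injective_of_disjoint (disjoint_iff.mpr hg)
  have := Nat.card_le_card_of_injective _ hinj
  rwa [Nat.card_prod, card_cj] at this

theorem orderOf_sq_le [Finite G] (hG : NoP G) (a : G) : orderOf a * orderOf a ≤ Nat.card G := by
  have := card_sq_le hG (zpowers a) (by
    intro x hx y hy
    rw [mem_zpowers_iff] at hx hy
    obtain ⟨i, rfl⟩ := hx
    obtain ⟨j, rfl⟩ := hy
    rw [← zpow_add, ← zpow_add, add_comm])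
  rwa [Nat.card_zpowers] at this

end Pool.Agent.H68.Cyc
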