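import Mathlib
import Pool.Agent.H68.Cyc.Zenkov

open Subgroup

namespace Pool.Agent.H68.Cyc

/-- number of cyclic subgroups -/
noncomputable def cyc (G : Type*) [Group G] : ℕ := Nat.card {H : Subgroup G // IsCyclic H}

variable {G : Type*} [Group G]

lemma isCyclic_iff_zpowers (H : Subgroup G) : IsCyclic H ↔ ∃ g : G, zpowers g = H := by
  constructor
  · intro h
    obtain ⟨g, hg⟩ := h.exists_generator
    refine ⟨g, le_antisymm (by rw [zpowers_le]; exact g.2) ?_⟩
    intro x hx
    obtain ⟨k, hk⟩ := mem_zpowers_iff.mp (hg ⟨x, hx⟩)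
    exact mem_zpowers_iff.mpr ⟨k, by simpa using congrArg Subtype.val hk⟩
  · rintro ⟨g, rfl⟩
    infer_instance

lemma cyc_eq_image [Fintype G] [DecidableEq (Subgroup G)] :
    cyc G = (Finset.univ.image (fun g : G => zpowers g)).card := by
  rw [cyc, ← Nat.card_eq_finsetCard]
  refine Nat.card_congr (Equiv.subtypeEquivRight ?_)
  intro H
  rw [isCyclic_iff_zpowers]
  simp

lemma fiber_le [Fintype G] [DecidableEq (Subgroup G)] (h : G) :
    (Finset.univ.filter (fun g : G => zpowers g = zpowers h)).card ≤ (orderOf h).totient := by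
  classical
  have hc : Fintype.card (zpowers h) = orderOf h := Fintype.card_zpowers
  have h1 := IsCyclic.card_orderOf_eq_totient (α := zpowers h) (d := orderOf h) (by rw [hc])
  rw [← h1]
  refine Finset.card_le_card_of_surjOn (fun a : zpowers h => (a : G)) ?_
  intro g hg
  simp only [Finset.coe_filter, Finset.mem_univ, true_and, Set.mem_ofPred_eq] at hg
  have hgm : g ∈ zpowers h := by rw [← hg]; exact mem_zpowers g
  refine ⟨⟨g, hgm⟩, ?_, rfl⟩
  simp only [Finset.coe_filter, Finset.mem_univ, true_and, Set.mem_ofPred_eq]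
  rw [Subgroup.orderOf_mk, ← Nat.card_zpowers, hg, Nat.card_zpowers]

theorem cyc_weight [Fintype G] (w : ℕ → ℚ) (hw : ∀ g : G, w (orderOf g) * (orderOf g).totient ≤ 1) :
    ∑ g : G, w (orderOf g) ≤ cyc G := by
  classical
  rw [cyc_eq_image]
  rw [← Finset.sum_fiberwise_of_maps_to (g := fun g : G => zpowers g)
    (t := Finset.univ.image (fun g : G => zpowers g)) (fun g _ => Finset.mem_image_of_mem _ (Finset.mem_univ g))]
  rw [Finset.card_eq_sum_ones, Nat.cast_sum]
  refine Finset.sum_le_sum ?_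
  intro H hH
  obtain ⟨h, _, rfl⟩ := Finset.mem_image.mp hH
  have h1 : ∀ g ∈ Finset.univ.filter (fun g : G => zpowers g = zpowers h),
      w (orderOf g) = w (orderOf h) := by
    intro g hg
    have := (Finset.mem_filter.mp hg).2
    rw [← Nat.card_zpowers, this, Nat.card_zpowers]
  rw [Finset.sum_congr rfl h1, Finset.sum_const, nsmul_eq_mul, Nat.cast_one]
  have h2 := fiber_le h
  rcases le_or_gt (w (orderOf h)) 0 with h3 | h3
  · have : (0 : ℚ) ≤ ((Finset.univ.filter (fun g : G => zpowers g = zpowers h)).card : ℚ) := by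
      positivity
    nlinarith
  · have h4 : ((Finset.univ.filter (fun g : G => zpowers g = zpowers h)).card : ℚ)
        ≤ ((orderOf h).totient : ℚ) := by exact_mod_cast h2
    have h5 := hw h
    nlinarith

theorem cyc_lower_one [Finite G] (M : ℕ) (h : ∀ g : G, (orderOf g).totient ≤ M) :
    Nat.card G ≤ cyc G * M := by
  have := Fintype.ofFinite G
  have hM : 0 < M := lt_of_lt_of_le (by simp) (h 1)
  have hM' : (0 : ℚ) < M := by exact_mod_cast hM
  have h1 := cyc_weight (G := G) (fun _ => 1 / (M : ℚ)) (by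
    intro g
    have : ((orderOf g).totient : ℚ) ≤ M := by exact_mod_cast h g
    rw [one_div, inv_mul_le_iff₀ hM', mul_one]; exact this)
  rw [Finset.sum_const, nsmul_eq_mul, Finset.card_univ, ← Nat.card_eq_fintype_card] at h1
  rw [mul_one_div, div_le_iff₀ hM'] at h1
  exact_mod_cast h1

theorem cyc_lower_two_exact [Finite G] (p E M1 M2 B : ℕ)
    (h1 : ∀ g : G, p ∣ orderOf g → (orderOf g).totient ≤ M1)
    (h2 : ∀ g : G, ¬ p ∣ orderOf g → (orderOf g).totient ≤ M2)
    (hM1 : 0 < M1) (hM2 : 0 < M2)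
    (hE : Nat.card {g : G // p ∣ orderOf g} = E)
    (hB : B * (M1 * M2) < E * M2 + (Nat.card G - E) * M1 + M1 * M2) :
    B ≤ cyc G := by
  classical
  have := Fintype.ofFinite G
  have hM1' : (0 : ℚ) < M1 := by exact_mod_cast hM1
  have hM2' : (0 : ℚ) < M2 := by exact_mod_cast hM2
  have key := cyc_weight (G := G) (fun a => if p ∣ a then 1 / (M1 : ℚ) else 1 / (M2 : ℚ)) (by
    intro g
    split_ifs with hp
    · have : ((orderOf g).totient : ℚ) ≤ M1 := by exact_mod_cast h1 g hp
      rw [one_div, inv_mul_le_iff₀ hM1', mul_one]; exact this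
    · have : ((orderOf g).totient : ℚ) ≤ M2 := by exact_mod_cast h2 g hp
      rw [one_div, inv_mul_le_iff₀ hM2', mul_one]; exact this)
  rw [Finset.sum_ite, Finset.sum_const, Finset.sum_const, nsmul_eq_mul, nsmul_eq_mul] at key
  have hE' : (Finset.univ.filter (fun g : G => p ∣ orderOf g)).card = E := by
    rw [← hE, Nat.card_eq_fintype_card, Fintype.card_subtype]
  set F := (Finset.univ.filter (fun g : G => ¬ p ∣ orderOf g)).card with hFdef
  have hEF : E + F = Nat.card G := by
    rw [← hE', hFdef, Finset.card_filter_add_card_filter_not, Nat.card_eq_fintype_card,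
      Finset.card_univ]
  rw [hE'] at key
  have e1 : (E : ℚ) * M2 + F * M1 ≤ cyc G * (M1 * M2) := by
    have : (E : ℚ) * M2 + F * M1 = (E * (1 / (M1 : ℚ)) + F * (1 / (M2 : ℚ))) * (M1 * M2) := by
      field_simp
    rw [this]
    exact mul_le_mul_of_nonneg_right key (by positivity)
  have e2 : E * M2 + F * M1 ≤ cyc G * (M1 * M2) := by exact_mod_cast e1
  by_contra hcon
  push Not at hcon
  have e3 : (cyc G + 1) * (M1 * M2) ≤ B * (M1 * M2) := Nat.mul_le_mul_right _ hcon
  have hF : F = Nat.card G - E := by omega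
  rw [← hF] at hB
  nlinarith

theorem cyc_lower_two [Finite G] (p E0 M1 M2 B : ℕ)
    (h1 : ∀ g : G, p ∣ orderOf g → (orderOf g).totient ≤ M1)
    (h2 : ∀ g : G, ¬ p ∣ orderOf g → (orderOf g).totient ≤ M2)
    (hM1 : 0 < M1) (hM2 : 0 < M2) (h21 : M2 ≤ M1)
    (hE : Nat.card {g : G // p ∣ orderOf g} ≤ E0)
    (hB : B * (M1 * M2) < E0 * M2 + (Nat.card G - E0) * M1 + M1 * M2) (hE0 : E0 ≤ Nat.card G) :
    B ≤ cyc G := by
  refine cyc_lower_two_exact p _ M1 M2 B h1 h2 hM1 hM2 rfl ?_
  refine lt_of_lt_of_le hB ?_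
  set E := Nat.card {g : G // p ∣ orderOf g} with hEdef
  obtain ⟨d, hd⟩ := Nat.exists_eq_add_of_le hE
  obtain ⟨m, hm⟩ := Nat.exists_eq_add_of_le h21
  have hF : Nat.card G - E = (Nat.card G - E0) + d := by omega
  rw [hF, hd, hm]
  nlinarith [Nat.zero_le (d * m)]

theorem cyc_le_card [Finite G] : cyc G ≤ Nat.card G := by
  classical
  have := Fintype.ofFinite G
  rw [cyc_eq_image, Nat.card_eq_fintype_card]
  exact Finset.card_image_le

end Pool.Agent.H68.Cyc
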