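import Mathlib

namespace Pool.Agent.H68.Cyc

/-- the primes below 171 -/
def PL : List ℕ := [2,3,5,7,11,13,17,19,23,29,31,37,41,43,47,53,59,61,67,71,73,79,83,89,97,101,103,
  107,109,113,127,131,137,139,149,151,157,163,167]

/-- there is a divisor of `n` that is `1` mod `p` and bigger than `1` -/
def fsyl (n p : ℕ) : Bool := (List.range (n / p)).any (fun j => n % (p * (j + 1) + 1) == 0)

/-- Sylow filter -/
def filt (n : ℕ) : Bool := PL.all (fun p => n % p != 0 || fsyl n p)

/-- number of listed primes dividing `n` -/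
def cnt (n : ℕ) : ℕ := PL.countP (fun p => n % p == 0)

/-- maximum of the totients of the divisors `a` of `n` with `a ^ 2 ≤ cap` and `Q a` -/
def mx (Q : ℕ → Bool) (n cap : ℕ) : ℕ :=
  (List.range 257).foldl (fun acc a =>
    if a != 0 && n % a == 0 && Nat.ble (a * a) cap && Q a then max acc a.totient else acc) 0

def condA (n p B : ℕ) : Bool :=
  let Mo := mx (fun a => a % p == 0) n n
  let Mi := mx (fun _ => true) (n / p) (n / p)
  Nat.blt (B * (Mo * Mi)) ((n - n / p) * Mi + (n / p) * Mo + Mo * Mi)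

def condB (n p k c B : ℕ) : Bool :=
  let E := k * (c / p * (p - 1))
  let M2 := mx (fun a => a % p != 0) n n
  let M1 := max (mx (fun a => a % p == 0) c n) M2
  Nat.blt (B * (M1 * M2)) (E * M2 + (n - E) * M1 + M1 * M2)

def ok (n p B : ℕ) : Bool :=
  (List.range (n / p)).all fun j =>
    let k := p * (j + 1) + 1
    (n % k != 0) || (List.range p).all fun r' =>
      let r := r' + 1
      ((p - 1) % r != 0) || (n % (k * r) != 0) ||
      (let c := n / (k * r)
       (c % p != 0) ||
        (if r == 1 then (!filt (n / p)) || condA n p B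
         else PL.any (fun q => c % q == 0 && q != p && Nat.blt n ((p * q) * (p * q)))
          || condB n p k c B))

lemma foldl_mono (f : ℕ → ℕ → ℕ) (hf : ∀ m a, m ≤ f m a) (l : List ℕ) :
    ∀ m, m ≤ l.foldl f m := by
  induction l with
  | nil => intro m; exact le_rfl
  | cons x l ih => intro m; exact (hf m x).trans (ih _)

lemma foldl_mem (f : ℕ → ℕ → ℕ) (hf : ∀ m a, m ≤ f m a) (l : List ℕ) (a v : ℕ) (ha : a ∈ l)
    (hv : ∀ m, v ≤ f m a) : ∀ m, v ≤ l.foldl f m := by
  induction l with
  | nil => simp at ha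
  | cons x l ih =>
    intro m
    rcases List.mem_cons.mp ha with rfl | h
    · exact (hv m).trans (foldl_mono f hf l _)
    · exact ih h _

lemma mx_spec (Q : ℕ → Bool) (n cap a : ℕ) (h1 : a < 257) (h2 : a ≠ 0) (h3 : a ∣ n)
    (h4 : a * a ≤ cap) (h5 : Q a = true) : a.totient ≤ mx Q n cap := by
  unfold mx
  refine foldl_mem _ ?_ _ a _ (List.mem_range.mpr h1) ?_ _
  · intro m b
    split_ifs
    · exact le_max_left _ _
    · exact le_rfl
  · intro m
    rw [if_pos]
    · exact le_max_right _ _
    · have h6 : n % a = 0 := Nat.mod_eq_zero_of_dvd h3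
      have h7 : Nat.ble (a * a) cap = true := Nat.ble_eq_true_of_le h4
      simp [h2, h6, h7, h5]

lemma PL_prime : ∀ p ∈ PL, p.Prime := by
  intro p hp
  simp only [PL, List.mem_cons, List.not_mem_nil, or_false] at hp
  rcases hp with rfl | rfl | rfl | rfl | rfl | rfl | rfl | rfl | rfl | rfl | rfl | rfl | rfl | rfl |
    rfl | rfl | rfl | rfl | rfl | rfl | rfl | rfl | rfl | rfl | rfl | rfl | rfl | rfl | rfl | rfl |
    rfl | rfl | rfl | rfl | rfl | rfl | rfl | rfl | rfl <;> norm_num

end Pool.Agent.H68.Cyc
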