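import Mathlib
import Pool.Agent.H68.Cyc.Num

namespace Pool.Agent.H68.Cyc

/-- number of members of the list dividing `n` -/
def cntf : List ℕ → ℕ → ℕ
  | [], _ => 0
  | p :: l, n => cond (Nat.beq (Nat.mod n p) 0) (Nat.succ (cntf l n)) (cntf l n)

/-- the numerical test for numbers with `t` prime divisors -/
def good (L : List ℕ) (t n : ℕ) : Bool :=
  cond (Nat.beq (cntf L n) t)
    (PL.all (fun p => n % (p * p) != 0) || !(filt n) ||
    n == 24 || n == 60 || n == 120 || n == 132 ||
    Nat.ble (2 ^ (t + 2) * mx (fun _ => true) n n) n ||
    PL.any (fun p => n % p == 0 && n % (p * p) != 0 && ok n p (2 ^ (t + 2)))) true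

/-- test `good` on an arithmetic progression -/
def loop (L : List ℕ) (t d : ℕ) : ℕ → ℕ → Bool
  | 0, _ => true
  | k + 1, n => cond (good L t n) (loop L t d k (Nat.add n d)) false

lemma loop_spec (L : List ℕ) (t d k : ℕ) :
    ∀ n, loop L t d k n = true → ∀ i < k, good L t (n + i * d) = true := by
  induction k with
  | zero => intro n _ i hi; omega
  | succ k ih =>
    intro n h i hi
    rw [loop] at h
    cases hg : good L t n with
    | false => rw [hg] at h; simp at h
    | true =>
      rw [hg, cond_true] at h
      rcases Nat.eq_zero_or_pos i with rfl | hpos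
      · simpa using hg
      · obtain ⟨j, rfl⟩ : ∃ j, i = j + 1 := ⟨i - 1, by omega⟩
        have := ih _ h j (by omega)
        have e : Nat.add n d + j * d = n + (j + 1) * d := by
          rw [Nat.add_eq]; ring
        rwa [e] at this

set_option maxRecDepth 100000 in
lemma good_2 : loop PL 2 1 256 0 = true := by decide +kernel
set_option maxRecDepth 100000 in
lemma good_3 : loop PL 3 1 1024 0 = true := by decide +kernel
set_option maxRecDepth 100000 in
lemma good_4 : loop (PL.take 32) 4 1 4096 0 = true := by decide +kernel
set_option maxRecDepth 100000 in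
lemma good_5a : loop (PL.take 22) 5 1 4096 0 = true := by decide +kernel
set_option maxRecDepth 100000 in
lemma good_5b : loop (PL.take 22) 5 1 4096 4096 = true := by decide +kernel
set_option maxRecDepth 100000 in
lemma good_5c : loop (PL.take 22) 5 1 4096 8192 = true := by decide +kernel
set_option maxRecDepth 100000 in
lemma good_5d : loop (PL.take 22) 5 1 4096 12288 = true := by decide +kernel
set_option maxRecDepth 100000 in
lemma good_6 : loop (PL.take 10) 6 210 313 0 = true := by decide +kernel

end Pool.Agent.H68.Cyc
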