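import Mathlib
import Pool.Agent.H68.Cyc.Count

open Subgroup

namespace Pool.Agent.H68.Cyc

variable {G : Type*} [Group G]

/-- image of a cyclic subgroup in the quotient -/
lemma map_zpowers_mk (N : Subgroup G) [N.Normal] (g : G) :
    (zpowers g).map (QuotientGroup.mk' N) = zpowers (g : G ⧸ N) := by
  rw [MonoidHom.map_zpowers]; rfl

theorem cyc_quotient_le [Finite G] (N : Subgroup G) [N.Normal] : cyc (G ⧸ N) ≤ cyc G := by
  refine Nat.card_le_card_of_surjective
    (fun H : {H : Subgroup G // IsCyclic H} =>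
      (⟨H.1.map (QuotientGroup.mk' N), by
        obtain ⟨g, hg⟩ := (isCyclic_iff_zpowers H.1).mp H.2
        rw [← hg, map_zpowers_mk]; infer_instance⟩ : {H : Subgroup (G ⧸ N) // IsCyclic H})) ?_
  rintro ⟨K, hK⟩
  obtain ⟨x, rfl⟩ := (isCyclic_iff_zpowers K).mp hK
  obtain ⟨g, rfl⟩ := QuotientGroup.mk_surjective x
  refine ⟨⟨zpowers g, inferInstance⟩, ?_⟩
  apply Subtype.ext
  exact map_zpowers_mk N g

theorem two_mul_cyc_quotient_le [Finite G] (N : Subgroup G) [N.Normal] {p : ℕ} [hp : Fact p.Prime]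
    (hN : IsPGroup p N) (hne : N ≠ ⊥) (hpq : ¬ p ∣ Nat.card (G ⧸ N)) :
    2 * cyc (G ⧸ N) ≤ cyc G := by
  classical
  obtain ⟨z, hzN, hz1⟩ : ∃ z ∈ N, z ≠ 1 := by
    obtain ⟨z, hz⟩ := Subgroup.ne_bot_iff_exists_ne_one.mp hne
    exact ⟨z.1, z.2, fun h => hz (Subtype.ext h)⟩
  obtain ⟨a, ha⟩ := (IsPGroup.iff_card (G := N)).mp hN
  -- lifting
  have hlift : ∀ x : G ⧸ N, ∃ h : G, (h : G ⧸ N) = x ∧ ∀ j : ℤ, h ^ j ∈ N → h ^ j = 1 := by
    intro x
    obtain ⟨g, rfl⟩ := QuotientGroup.mk_surjective x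
    set m := orderOf (g : G ⧸ N) with hm
    have hcop : Nat.Coprime (p ^ a) m := by
      refine Nat.Coprime.pow_left _ ?_
      rw [Nat.Prime.coprime_iff_not_dvd hp.out]
      intro h
      exact hpq (h.trans (orderOf_dvd_natCard _))
    obtain ⟨e, he1, he2⟩ := Nat.chineseRemainder hcop 0 1
    have hq : p ^ a ∣ e := (Nat.modEq_zero_iff_dvd).mp he1
    have hgm : g ^ m ∈ N := by
      rw [← QuotientGroup.eq_one_iff, QuotientGroup.mk_pow, hm, pow_orderOf_eq_one]
    have hhm : (g ^ e) ^ m = 1 := by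
      rw [← pow_mul, mul_comm, pow_mul]
      obtain ⟨c, hc⟩ := hq
      rw [hc, pow_mul]
      have : (g ^ m) ^ (p ^ a) = 1 := by
        have h1 := pow_card_eq_one' (x := (⟨g ^ m, hgm⟩ : N))
        rw [ha] at h1
        simpa using congrArg Subtype.val h1
      rw [this, one_pow]
    have himg : ((g ^ e : G) : G ⧸ N) = g := by
      rw [QuotientGroup.mk_pow]
      conv_rhs => rw [← pow_one (g : G ⧸ N)]
      rw [pow_eq_pow_iff_modEq]
      exact he2
    refine ⟨g ^ e, himg, ?_⟩
    intro j hj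
    have h1 : ((g ^ e : G) : G ⧸ N) ^ j = 1 := by
      rw [← QuotientGroup.mk_zpow, QuotientGroup.eq_one_iff]; exact hj
    rw [himg] at h1
    have h2 : (m : ℤ) ∣ j := by
      rw [hm]; exact orderOf_dvd_iff_zpow_eq_one.mpr h1
    obtain ⟨c, rfl⟩ := h2
    rw [zpow_mul, zpow_natCast, hhm, one_zpow]
  choose L hL1 hL2 using hlift
  -- representative generator of a cyclic subgroup of the quotient
  have hgen : ∀ K : {H : Subgroup (G ⧸ N) // IsCyclic H}, ∃ x, zpowers x = K.1 :=
    fun K => (isCyclic_iff_zpowers K.1).mp K.2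
  choose x hx using hgen
  let f : Bool × {H : Subgroup (G ⧸ N) // IsCyclic H} → {H : Subgroup G // IsCyclic H} :=
    fun bK => if bK.1 then ⟨zpowers (L (x bK.2)), inferInstance⟩
      else ⟨zpowers (L (x bK.2) * z), inferInstance⟩
  have hfmap : ∀ bK, ((f bK).1).map (QuotientGroup.mk' N) = bK.2.1 := by
    rintro ⟨b, K⟩
    cases b
    · change (zpowers (L (x K) * z)).map (QuotientGroup.mk' N) = K.1
      rw [map_zpowers_mk, ← hx K]
      congr 1
      rw [QuotientGroup.mk_mul_of_mem _ hzN, hL1]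
    · change (zpowers (L (x K))).map (QuotientGroup.mk' N) = K.1
      rw [map_zpowers_mk, hL1, hx K]
  have hfne : ∀ K, zpowers (L (x K)) ≠ zpowers (L (x K) * z) := by
    intro K h
    have h1 : L (x K) * z ∈ zpowers (L (x K)) := by rw [h]; exact mem_zpowers _
    have h2 : z ∈ zpowers (L (x K)) := by
      have := mul_mem (inv_mem (mem_zpowers (L (x K)))) h1
      simpa using this
    obtain ⟨j, hj⟩ := mem_zpowers_iff.mp h2
    have h3 := hL2 (x K) j (by rw [hj]; exact hzN)
    exact hz1 (hj.symm.trans h3)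
  have hinj : Function.Injective f := by
    rintro ⟨b, K⟩ ⟨b', K'⟩ h
    have hKK : K = K' := by
      apply Subtype.ext
      have h1 := hfmap (b, K)
      have h2 := hfmap (b', K')
      rw [h] at h1
      exact h1.symm.trans h2
    subst hKK
    cases b <;> cases b'
    · rfl
    · exact absurd (congrArg Subtype.val h).symm (hfne K)
    · exact absurd (congrArg Subtype.val h) (hfne K)
    · rfl
  have := Nat.card_le_card_of_injective f hinj
  rwa [Nat.card_prod, Nat.card_eq_fintype_card (α := Bool), Fintype.card_bool] at this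

end Pool.Agent.H68.Cyc
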