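import Mathlib
import Pool.Agent.H68.Cyc.Quot

open Subgroup Pointwise

namespace Pool.Agent.H68.Cyc

variable {G : Type*} [Group G]

theorem NoP.of_normal [Finite G] (hG : NoP G) (K : Subgroup G) [K.Normal] : NoP K := by
  intro p hp N hN hNp
  have := Fact.mk hp
  let S : Set (Subgroup K) := {N | N.Normal ∧ IsPGroup p N}
  have hLp : IsPGroup p (sSup S : Subgroup K) :=
    Sylow.sSup_of_normal S (fun H h => h.2) (fun H h => h.1)
  have hLc : (sSup S : Subgroup K).Characteristic := by
    rw [characteristic_iff_map_le]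
    intro φ
    rw [(gc_map_comap φ.toMonoidHom).l_sSup]
    refine iSup₂_le ?_
    intro H hH
    refine le_sSup ?_
    exact ⟨hH.1.map _ φ.surjective, hH.2.map _⟩
  have hM := hG p hp ((sSup S : Subgroup K).map K.subtype)
    ConjAct.normal_of_characteristic_of_normal (hLp.map _)
  have hL := (map_eq_bot_iff_of_injective (sSup S : Subgroup K) K.subtype_injective).mp hM
  have hNL : N ≤ sSup S := le_sSup ⟨hN, hNp⟩
  rw [hL] at hNL
  exact le_bot_iff.mp hNL

lemma sylow_facts [Finite G] (hG : NoP G) {p : ℕ} [hp : Fact p.Prime] (hpd : p ∣ Nat.card G) :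
    Nat.card (Sylow p G) % p = 1 ∧ 1 < Nat.card (Sylow p G) ∧ Nat.card (Sylow p G) ∣ Nat.card G := by
  obtain ⟨P⟩ : Nonempty (Sylow p G) := inferInstance
  refine ⟨?_, ?_, ?_⟩
  · have := card_sylow_modEq_one p G
    rw [Nat.ModEq, Nat.mod_eq_of_lt hp.out.one_lt] at this
    exact this
  · by_contra hcon
    have h0 : 0 < Nat.card (Sylow p G) := Nat.card_pos
    have h1 : Nat.card (Sylow p G) = 1 := by omega
    have : Subsingleton (Sylow p G) := (Nat.card_eq_one_iff_unique.mp h1).1
    have hn := Sylow.normal_of_subsingleton P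
    exact P.ne_bot_of_dvd_card hpd (hG p hp.out _ hn P.isPGroup')
  · exact P.card_dvd_index.trans (index_dvd_card _)

lemma complement [Finite G] (hG : NoP G) {p : ℕ} [hp : Fact p.Prime] (P : Sylow p G)
    (hP : normalizer P ≤ centralizer (P : Set G)) :
    ∃ K : Subgroup G, NoP K ∧ Nat.card K * Nat.card P = Nat.card G ∧
      (∀ g : G, g ∉ K → p ∣ orderOf g) ∧ ¬ p ∣ Nat.card K := by
  have hK := MonoidHom.ker_transferSylow_isComplement' P hP
  refine ⟨(MonoidHom.transferSylow P hP).ker, hG.of_normal _, hK.card_mul_card, ?_, ?_⟩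
  · intro g hg
    rw [MonoidHom.mem_ker] at hg
    have h1 : orderOf (MonoidHom.transferSylow P hP g) ∣ orderOf g := orderOf_map_dvd _ g
    exact (P.isPGroup'.dvd_orderOf hg).trans h1
  · exact MonoidHom.not_dvd_card_ker_transferSylow P hP

/-- in a group with central Sylow `p`-subgroup of order `p`, many elements are `p'`-elements -/
lemma card_p'_elements {H : Type*} [Group H] [Finite H] {p : ℕ} [hp : Fact p.Prime] (P : Sylow p H)
    (hP : (P : Subgroup H) ≤ center H) :
    Nat.card H ≤ Nat.card {h : H // ¬ p ∣ orderOf h} * Nat.card P := by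
  have hPc : normalizer (P : Set H) ≤ centralizer (P : Set H) := by
    intro x _
    rw [mem_centralizer_iff]
    intro h hh
    exact (mem_center_iff.mp (hP hh) x).symm
  have hK := MonoidHom.ker_transferSylow_isComplement' P hPc
  rw [← hK.card_mul_card]
  refine Nat.mul_le_mul_right _ ?_
  refine Nat.card_le_card_of_injective
    (fun k : (MonoidHom.transferSylow P hPc).ker => (⟨k.1, ?_⟩ : {h : H // ¬ p ∣ orderOf h})) ?_
  · intro h
    have h1 : orderOf (k : H) ∣ Nat.card (MonoidHom.transferSylow P hPc).ker := by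
      rw [Subgroup.orderOf_coe]; exact orderOf_dvd_natCard k
    exact MonoidHom.not_dvd_card_ker_transferSylow P hPc (h.trans h1)
  · intro a b hab
    exact Subtype.ext (congrArg (fun x : {h : H // ¬ p ∣ orderOf h} => x.1) hab)


lemma card_subtype_add_not {α : Type*} [Finite α] (q : α → Prop) :
    Nat.card {x // q x} + Nat.card {x // ¬ q x} = Nat.card α := by
  classical
  rw [← Nat.card_sum]
  exact Nat.card_congr (Equiv.sumCompl q)

theorem struct [Finite G] (hG : NoP G) {p : ℕ} [hp : Fact p.Prime] (hpd : p ∣ Nat.card G)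
    (hpp : ¬ p * p ∣ Nat.card G) :
    ∃ k c r : ℕ, Nat.card G = k * c * r ∧ p ∣ c ∧ r ∣ p - 1 ∧ k % p = 1 ∧ 1 < k ∧
      (∀ g : G, p ∣ orderOf g → orderOf g ∣ c) ∧
      (∀ q : ℕ, q.Prime → q ∣ c → q ≠ p → (p * q) * (p * q) ≤ Nat.card G) ∧
      Nat.card {g : G // p ∣ orderOf g} * p ≤ k * (c * (p - 1)) ∧
      (r = 1 → ∃ K : Subgroup G, NoP K ∧ Nat.card K * p = Nat.card G ∧
        (∀ g : G, g ∉ K → p ∣ orderOf g) ∧ ¬ p ∣ Nat.card K) := by
  classical
  obtain ⟨P⟩ : Nonempty (Sylow p G) := inferInstance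
  have hPc : ∀ Q : Sylow p G, Nat.card Q = p := by
    intro Q
    obtain ⟨a, ha⟩ := (IsPGroup.iff_card).mp Q.isPGroup'
    have h1 : p ∣ Nat.card Q := Q.dvd_card_of_dvd_card hpd
    have h2 : Nat.card Q ∣ Nat.card G := Subgroup.card_subgroup_dvd_card _
    rcases a with _ | _ | a
    · rw [ha, pow_zero] at h1
      exact absurd h1 hp.out.not_dvd_one
    · rw [ha, zero_add, pow_one]
    · exfalso
      apply hpp
      refine dvd_trans ?_ h2
      rw [ha]
      exact ⟨p ^ a, by ring⟩
  have hcyc : IsCyclic P := isCyclic_of_prime_card (hPc P)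
  set N := normalizer (P : Set G) with hN
  set C := centralizer (P : Set G) with hC
  have hCN : C ≤ N := centralizer_le_normalizer _
  have hcomm : IsMulCommutative P := IsCyclic.isMulCommutative
  have hPC : (P : Subgroup G) ≤ C := (P : Subgroup G).le_centralizer
  obtain ⟨hk1, hk2, _⟩ := sylow_facts hG hpd
  have hmain : ∀ g : G, p ∣ orderOf g → ∃ h : G, h⁻¹ * g * h ∈ C := by
    intro g hg
    have hy := orderOf_pow_orderOf_div (orderOf_pos g).ne' hg
    set y := g ^ (orderOf g / p) with hydef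
    have hyp : IsPGroup p (zpowers y) := by
      refine IsPGroup.of_card (n := 1) ?_
      rw [Nat.card_zpowers, hy, pow_one]
    obtain ⟨Q, hQ⟩ := hyp.exists_le_sylow
    have hQe : zpowers y = (Q : Subgroup G) := by
      refine Subgroup.eq_of_le_of_card_ge hQ ?_
      rw [Nat.card_zpowers, hy]
      exact (hPc Q).le
    obtain ⟨h, hh⟩ := MulAction.exists_smul_eq G P Q
    refine ⟨h, ?_⟩
    rw [hC, mem_centralizer_iff]
    intro z hz
    have h1 : h * z * h⁻¹ ∈ (Q : Subgroup G) := by
      rw [← hh, Sylow.coe_subgroup_smul, mem_cj]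
      have : h⁻¹ * (h * z * h⁻¹) * h = z := by group
      rw [this]; exact hz
    rw [← hQe, mem_zpowers_iff] at h1
    obtain ⟨j, hj⟩ := h1
    have h2 : Commute g (h * z * h⁻¹) := by
      rw [← hj, hydef]
      exact ((Commute.refl g).pow_right _).zpow_right _
    have h3 := h2.eq
    calc z * (h⁻¹ * g * h) = h⁻¹ * ((h * z * h⁻¹) * g) * h := by group
      _ = h⁻¹ * (g * (h * z * h⁻¹)) * h := by rw [h3]
      _ = _ := by group
  refine ⟨Nat.card (Sylow p G), Nat.card C, C.relIndex N, ?_, ?_, ?_, hk1, hk2, ?_, ?_, ?_, ?_⟩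
  · have h1 := C.card_mul_index
    have h2 := relIndex_mul_index hCN
    have h3 := P.card_eq_index_normalizer
    rw [← h1, ← h2, h3]; ring
  · have := Subgroup.card_dvd_of_le hPC
    rwa [hPc P] at this
  · have key := card_dvd_of_injective _ (QuotientGroup.kerLift_injective P.normalizerMonoidHom)
    rw [normalizerMonoidHom_ker, ← index, ← relIndex, hcyc.card_mulAut, hPc P,
      Nat.totient_prime hp.out] at key
    exact key
  · -- orders divide card C
    intro g hg
    obtain ⟨h, hh⟩ := hmain g hg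
    have e : orderOf (h⁻¹ * g * h) = orderOf g := by
      have := orderOf_injective (MulAut.conj h⁻¹).toMonoidHom (MulAut.conj h⁻¹).injective g
      simpa using this
    rw [← e]
    have h1 : orderOf (h⁻¹ * g * h) = orderOf (⟨h⁻¹ * g * h, hh⟩ : C) := (Subgroup.orderOf_mk _ _).symm
    rw [h1]
    exact orderOf_dvd_natCard _
  · intro q hq hqc hqp
    have := Fact.mk hq
    obtain ⟨x, hx⟩ := exists_prime_orderOf_dvd_card' q hqc
    obtain ⟨z, hz⟩ := exists_prime_orderOf_dvd_card' (G := P) p (by rw [hPc P])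
    have hx' : orderOf (x : G) = q := by rw [Subgroup.orderOf_coe, hx]
    have hz' : orderOf (z : G) = p := by rw [Subgroup.orderOf_coe, hz]
    have hcom : Commute (z : G) (x : G) := by
      have := mem_centralizer_iff.mp x.2 z.1 z.2
      exact this
    have hcop : Nat.Coprime (orderOf (z : G)) (orderOf (x : G)) := by
      rw [hz', hx']
      exact (Nat.coprime_primes hp.out hq).mpr (Ne.symm hqp)
    have h1 := hcom.orderOf_mul_eq_mul_orderOf_of_coprime hcop
    have h2 := orderOf_sq_le hG ((z : G) * x)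
    rw [h1, hz', hx'] at h2
    exact h2
  · -- counting
    set s := Nat.card {x : C // p ∣ orderOf x} with hs
    have h1 : Nat.card {g : G // p ∣ orderOf g} ≤ Nat.card (Sylow p G) * s := by
      have hch : ∀ Q : Sylow p G, ∃ h : G, h • P = Q := fun Q => MulAction.exists_smul_eq G P Q
      choose H hH using hch
      rw [hs, ← Nat.card_prod]
      refine Nat.card_le_card_of_surjective
        (fun Qx : Sylow p G × {x : C // p ∣ orderOf x} =>
          (⟨H Qx.1 * (Qx.2.1 : G) * (H Qx.1)⁻¹, by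
            have := orderOf_injective (MulAut.conj (H Qx.1)).toMonoidHom
              (MulAut.conj (H Qx.1)).injective (Qx.2.1 : G)
            simp only [MulEquiv.coe_toMonoidHom, MulAut.conj_apply] at this
            rw [this, Subgroup.orderOf_coe]
            exact Qx.2.2⟩ : {g : G // p ∣ orderOf g})) ?_
      rintro ⟨g, hg⟩
      obtain ⟨h, hh⟩ := hmain g hg
      -- the Sylow subgroup h • P
      set Q := h • P with hQ
      have hHQ := hH Q
      -- (H Q)⁻¹ g (H Q) centralizes P
      have hmem : (H Q)⁻¹ * g * H Q ∈ C := by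
        have e1 : (h⁻¹ * H Q) • P = P := by rw [mul_smul, hHQ, hQ, inv_smul_smul]
        have e2 : h⁻¹ * H Q ∈ normalizer (P : Set G) := Sylow.smul_eq_iff_mem_normalizer.mp e1
        have e3 : (H Q)⁻¹ * g * H Q = (h⁻¹ * H Q)⁻¹ * (h⁻¹ * g * h) * (h⁻¹ * H Q) := by group
        rw [e3, hC, mem_centralizer_iff]
        intro y hy
        have e4 : (h⁻¹ * H Q) * y * (h⁻¹ * H Q)⁻¹ ∈ (P : Set G) :=
          (mem_normalizer_iff.mp e2 y).mp hy
        have e5 := mem_centralizer_iff.mp hh _ e4
        calc y * ((h⁻¹ * H Q)⁻¹ * (h⁻¹ * g * h) * (h⁻¹ * H Q))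
            = (h⁻¹ * H Q)⁻¹ * (((h⁻¹ * H Q) * y * (h⁻¹ * H Q)⁻¹) * (h⁻¹ * g * h)) * (h⁻¹ * H Q) := by
              group
          _ = (h⁻¹ * H Q)⁻¹ * ((h⁻¹ * g * h) * ((h⁻¹ * H Q) * y * (h⁻¹ * H Q)⁻¹)) * (h⁻¹ * H Q) := by
              rw [e5]
          _ = _ := by group
      refine ⟨(Q, ⟨⟨(H Q)⁻¹ * g * H Q, hmem⟩, ?_⟩), ?_⟩
      · rw [Subgroup.orderOf_mk]
        have := orderOf_injective (MulAut.conj (H Q)⁻¹).toMonoidHom
          (MulAut.conj (H Q)⁻¹).injective g
        simp only [MulEquiv.coe_toMonoidHom, MulAut.conj_apply, inv_inv] at this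
        rw [this]; exact hg
      · apply Subtype.ext
        change H Q * ((H Q)⁻¹ * g * H Q) * (H Q)⁻¹ = g
        group
    have h2 : s + Nat.card {x : C // ¬ p ∣ orderOf x} = Nat.card C :=
      card_subtype_add_not _
    have h3 := card_p'_elements (P.subtype hPC) (by
      intro x hx
      rw [mem_center_iff]
      intro y
      have hx' : (x : G) ∈ (P : Set G) := hx
      have := mem_centralizer_iff.mp y.2 _ hx'
      exact Subtype.ext this.symm)
    have h4 : Nat.card (P.subtype hPC) = p := by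
      have e1 : Nat.card (P.subtype hPC) = Nat.card ((P : Subgroup G).subgroupOf C) := rfl
      rw [e1, Nat.card_congr (subgroupOfEquivOfLe hPC).toEquiv, hPc P]
    rw [h4] at h3
    have h5 : s * p ≤ Nat.card C * (p - 1) := by
      have hp1 := hp.out.one_lt
      obtain ⟨m, hm⟩ : ∃ m, p = m + 1 := ⟨p - 1, by omega⟩
      rw [← h2, hm] at h3
      rw [← h2, hm]
      simp only [Nat.add_sub_cancel]
      nlinarith
    calc Nat.card {g : G // p ∣ orderOf g} * p ≤ Nat.card (Sylow p G) * s * p :=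
          Nat.mul_le_mul_right _ h1
      _ = Nat.card (Sylow p G) * (s * p) := by ring
      _ ≤ _ := Nat.mul_le_mul_left _ h5
  · intro hr
    rw [relIndex_eq_one] at hr
    obtain ⟨K, hK1, hK2, hK3, hK4⟩ := complement hG P hr
    rw [hPc P] at hK2
    exact ⟨K, hK1, hK2, hK3, hK4⟩

end Pool.Agent.H68.Cyc
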