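import Mathlib
import Pool.Agent.H68.Cyc.Struct
import Pool.Agent.H68.Cyc.Num

open Subgroup

namespace Pool.Agent.H68.Cyc

variable {G : Type*} [Group G]

lemma filt_sound [Finite G] (hG : NoP G) : filt (Nat.card G) = true := by
  unfold filt
  rw [List.all_eq_true]
  intro p hpL
  have hp := PL_prime p hpL
  have := Fact.mk hp
  by_cases hd : p ∣ Nat.card G
  · obtain ⟨h1, h2, h3⟩ := sylow_facts hG hd
    set k := Nat.card (Sylow p G) with hk
    have hpos : 0 < Nat.card G := Nat.card_pos
    have h5 := Nat.div_add_mod k p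
    have h6 : k ≤ Nat.card G := Nat.le_of_dvd hpos h3
    have h7 : 1 ≤ k / p := by
      by_contra hcon
      have : k / p = 0 := Nat.lt_one_iff.mp (not_le.mp hcon)
      rw [this, h1] at h5
      omega
    have h4 : fsyl (Nat.card G) p = true := by
      unfold fsyl
      rw [List.any_eq_true]
      refine ⟨k / p - 1, ?_, ?_⟩
      · rw [List.mem_range]
        have : k / p ≤ Nat.card G / p := Nat.div_le_div_right h6
        omega
      · have e : p * (k / p - 1 + 1) + 1 = k := by
          rw [Nat.sub_add_cancel h7]; omega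
        rw [e]
        simp [Nat.mod_eq_zero_of_dvd h3]
    simp [h4]
  · have : Nat.card G % p ≠ 0 := fun h => hd (Nat.dvd_of_mod_eq_zero h)
    simp [this]

lemma order_lt [Finite G] (hG : NoP G) (hn : Nat.card G < 257 * 257) (g : G) : orderOf g < 257 := by
  have h1 := orderOf_sq_le hG g
  by_contra hcon
  push Not at hcon
  have := Nat.mul_le_mul hcon hcon
  omega

theorem ok_sound [Finite G] (hG : NoP G) (p : ℕ) (hp : p.Prime) (B : ℕ)
    (hn : Nat.card G < 257 * 257) (hpd : p ∣ Nat.card G) (hpp : ¬ p * p ∣ Nat.card G)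
    (h : ok (Nat.card G) p B = true) : B ≤ cyc G := by
  have := Fact.mk hp
  obtain ⟨k, c, r, hkcr, hpc, hr, hk1, hk2, hord, hq, hE, hK⟩ := struct hG hpd hpp
  set n := Nat.card G with hndef
  have hnpos : 0 < n := Nat.card_pos
  have hp1 := hp.one_lt
  have h5 := Nat.div_add_mod k p
  have hkn : k ∣ n := ⟨c * r, by rw [hkcr]; ring⟩
  have h6 : k ≤ n := Nat.le_of_dvd hnpos hkn
  have h7 : 1 ≤ k / p := by
    by_contra hcon
    have : k / p = 0 := Nat.lt_one_iff.mp (not_le.mp hcon)
    rw [this, hk1] at h5
    omega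
  have hrpos : 0 < r := Nat.pos_of_dvd_of_pos hr (by omega)
  have hr_le : r ≤ p - 1 := Nat.le_of_dvd (by omega) hr
  have hcpos : 0 < c := by
    rcases Nat.eq_zero_or_pos c with h0 | h0
    · rw [h0] at hkcr; simp at hkcr; omega
    · exact h0
  unfold ok at h
  rw [List.all_eq_true] at h
  have h8 := h (k / p - 1) (by
    rw [List.mem_range]
    have : k / p ≤ n / p := Nat.div_le_div_right h6
    omega)
  have e : p * (k / p - 1 + 1) + 1 = k := by
    rw [Nat.sub_add_cancel h7]; omega
  simp only [e] at h8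
  have h9 : (n % k != 0) = false := by simp [Nat.mod_eq_zero_of_dvd hkn]
  rw [h9, Bool.false_or, List.all_eq_true] at h8
  have h10 := h8 (r - 1) (by rw [List.mem_range]; omega)
  have e2 : r - 1 + 1 = r := Nat.sub_add_cancel hrpos
  rw [e2] at h10
  have h11 : ((p - 1) % r != 0) = false := by simp [Nat.mod_eq_zero_of_dvd hr]
  have h12 : (n % (k * r) != 0) = false := by
    have : k * r ∣ n := ⟨c, by rw [hkcr]; ring⟩
    simp [Nat.mod_eq_zero_of_dvd this]
  have h13 : n / (k * r) = c := by
    rw [hkcr]
    have : k * c * r = (k * r) * c := by ring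
    rw [this]
    exact Nat.mul_div_cancel_left c (Nat.mul_pos (by omega) hrpos)
  rw [h11, h12, Bool.false_or, Bool.false_or, h13] at h10
  have h14 : (c % p != 0) = false := by simp [Nat.mod_eq_zero_of_dvd hpc]
  rw [h14, Bool.false_or] at h10
  -- an element of order p
  obtain ⟨x0, hx0⟩ := exists_prime_orderOf_dvd_card' (G := G) p hpd
  have hx0d : p ∣ orderOf x0 := by rw [hx0]
  have h1d : ¬ p ∣ orderOf (1 : G) := by
    rw [orderOf_one]; exact hp.not_dvd_one
  by_cases hr1 : r = 1
  · rw [if_pos (by simp [hr1])] at h10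
    obtain ⟨K, hK1, hK2, hK3, hK4⟩ := hK hr1
    have hKc : Nat.card K = n / p := by
      rw [← hK2, Nat.mul_div_cancel _ hp.pos]
    have hf := filt_sound hK1
    rw [hKc] at hf
    rw [hf, Bool.not_true, Bool.false_or] at h10
    unfold condA at h10
    simp only [Nat.blt_eq] at h10
    have hiff : ∀ g : G, p ∣ orderOf g ↔ g ∉ K := by
      intro g
      constructor
      · intro h1 h2
        apply hK4
        have h3 : orderOf g = orderOf (⟨g, h2⟩ : K) := (Subgroup.orderOf_mk _ _).symm
        rw [h3] at h1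
        exact h1.trans (orderOf_dvd_natCard _)
      · exact hK3 g
    have hEcard : Nat.card {g : G // p ∣ orderOf g} = n - n / p := by
      have e1 : Nat.card {g : G // p ∣ orderOf g} = Nat.card {g : G // ¬ g ∈ K} :=
        Nat.card_congr (Equiv.subtypeEquivRight hiff)
      have e2 := card_subtype_add_not (fun g : G => g ∈ K)
      have e3 : Nat.card {g : G // g ∈ K} = n / p := hKc
      rw [e1]
      rw [e3] at e2
      omega
    have hbd1 : ∀ g : G, p ∣ orderOf g → (orderOf g).totient ≤ mx (fun a => a % p == 0) n n := by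
      intro g hg
      refine mx_spec _ _ _ _ (order_lt hG hn g) (orderOf_pos g).ne' (orderOf_dvd_natCard g)
        (orderOf_sq_le hG g) ?_
      simp [Nat.mod_eq_zero_of_dvd hg]
    have hbd2 : ∀ g : G, ¬ p ∣ orderOf g →
        (orderOf g).totient ≤ mx (fun _ => true) (n / p) (n / p) := by
      intro g hg
      have hgK : g ∈ K := by
        by_contra hcon
        exact hg ((hiff g).mpr hcon)
      have h3 : orderOf g = orderOf (⟨g, hgK⟩ : K) := (Subgroup.orderOf_mk _ _).symm
      rw [h3, ← hKc]
      refine mx_spec _ _ _ _ ?_ (orderOf_pos _).ne' (orderOf_dvd_natCard _)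
        (orderOf_sq_le hK1 _) rfl
      rw [← h3]; exact order_lt hG hn g
    refine cyc_lower_two_exact (G := G) p (n - n / p) _ _ B hbd1 hbd2 ?_ ?_ hEcard ?_
    · exact lt_of_lt_of_le (Nat.totient_pos.mpr (orderOf_pos x0)) (hbd1 x0 hx0d)
    · exact lt_of_lt_of_le (Nat.totient_pos.mpr (orderOf_pos (1 : G))) (hbd2 1 h1d)
    · have e4 : Nat.card G - (n - n / p) = n / p := by
        have : n / p ≤ n := Nat.div_le_self _ _
        omega
      rw [e4]
      exact h10
  · rw [if_neg (by simpa using hr1)] at h10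
    rw [Bool.or_eq_true] at h10
    rcases h10 with h10 | h10
    · exfalso
      rw [List.any_eq_true] at h10
      obtain ⟨q, hqL, hq1⟩ := h10
      simp only [Bool.and_eq_true, beq_iff_eq, bne_iff_ne, Nat.blt_eq] at hq1
      obtain ⟨⟨hq2, hq3⟩, hq4⟩ := hq1
      have := hq q (PL_prime q hqL) (Nat.dvd_of_mod_eq_zero hq2) hq3
      omega
    · unfold condB at h10
      simp only [Nat.blt_eq] at h10
      have hbd1 : ∀ g : G, p ∣ orderOf g → (orderOf g).totient ≤ mx (fun a => a % p == 0) c n := by
        intro g hg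
        refine mx_spec _ _ _ _ (order_lt hG hn g) (orderOf_pos g).ne' (hord g hg)
          (orderOf_sq_le hG g) ?_
        simp [Nat.mod_eq_zero_of_dvd hg]
      have hbd2 : ∀ g : G, ¬ p ∣ orderOf g →
          (orderOf g).totient ≤ mx (fun a => a % p != 0) n n := by
        intro g hg
        refine mx_spec _ _ _ _ (order_lt hG hn g) (orderOf_pos g).ne' (orderOf_dvd_natCard g)
          (orderOf_sq_le hG g) ?_
        have : orderOf g % p ≠ 0 := fun h => hg (Nat.dvd_of_mod_eq_zero h)
        simp [this]
      have hcp : c / p * p = c := Nat.div_mul_cancel hpc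
      refine cyc_lower_two (G := G) p (k * (c / p * (p - 1))) _ _ B
        (fun g hg => (hbd1 g hg).trans (le_max_left _ _)) hbd2 ?_ ?_ (le_max_right _ _) ?_ h10 ?_
      · exact lt_of_lt_of_le (Nat.totient_pos.mpr (orderOf_pos x0))
          ((hbd1 x0 hx0d).trans (le_max_left _ _))
      · exact lt_of_lt_of_le (Nat.totient_pos.mpr (orderOf_pos (1 : G))) (hbd2 1 h1d)
      · refine Nat.le_of_mul_le_mul_right (c := p) ?_ hp.pos
        refine hE.trans (le_of_eq ?_)
        calc k * (c * (p - 1)) = k * ((c / p * p) * (p - 1)) := by rw [hcp]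
          _ = _ := by ring
      · have h15 : c / p * (p - 1) ≤ c := by
          calc c / p * (p - 1) ≤ c / p * p := Nat.mul_le_mul_left _ (by omega)
            _ = c := hcp
        calc k * (c / p * (p - 1)) ≤ k * c := Nat.mul_le_mul_left _ h15
          _ ≤ k * c * r := Nat.le_mul_of_pos_right _ hrpos
          _ = Nat.card G := hkcr.symm

end Pool.Agent.H68.Cyc
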