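import Mathlib
import Pool.Agent.H68.Cyc.Sound

open Subgroup

namespace Pool.Agent.H68.Cyc

variable {G : Type*} [Group G]

lemma two_part [Finite G] (hG : NoP G) (a : ℕ) (ha : a ≠ 0)
    (hn2 : ¬ 2 ^ (a + 1) ∣ Nat.card G) (g : G) (hg : 2 ^ a ∣ orderOf g) :
    ∃ K : Subgroup G, NoP K ∧ Nat.card K * 2 ^ a = Nat.card G := by
  have : Fact (Nat.Prime 2) := ⟨Nat.prime_two⟩
  have hy := orderOf_pow_orderOf_div (orderOf_pos g).ne' hg
  set y := g ^ (orderOf g / 2 ^ a) with hydef
  have hyp : IsPGroup 2 (zpowers y) := by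
    refine IsPGroup.of_card (n := a) ?_
    rw [Nat.card_zpowers, hy]
  obtain ⟨P, hP⟩ := hyp.exists_le_sylow
  obtain ⟨b, hb⟩ := (IsPGroup.iff_card).mp P.isPGroup'
  have hPc : Nat.card P = 2 ^ a := by
    have h1 : 2 ^ a ∣ Nat.card P := by
      have := Subgroup.card_dvd_of_le hP
      rwa [Nat.card_zpowers, hy] at this
    have h2 : b < a + 1 := by
      by_contra hcon
      push Not at hcon
      apply hn2
      have h3 : Nat.card P ∣ Nat.card G := Subgroup.card_subgroup_dvd_card _
      rw [hb] at h3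
      exact (pow_dvd_pow 2 hcon).trans h3
    rw [hb] at h1
    have h3 : a ≤ b := (Nat.pow_dvd_pow_iff_le_right (by norm_num)).mp h1
    rw [hb]
    congr 1
    omega
  have hPe : zpowers y = (P : Subgroup G) := by
    refine Subgroup.eq_of_le_of_card_ge hP ?_
    rw [Nat.card_zpowers, hy]
    exact hPc.le
  have hcyc : IsCyclic P := by rw [← hPe]; infer_instance
  have hmin : (Nat.card G).minFac = 2 := by
    rw [Nat.minFac_eq_two_iff]
    exact ((dvd_pow_self 2 ha).trans hg).trans (orderOf_dvd_natCard g)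
  obtain ⟨K, hK1, hK2, _, _⟩ := complement hG P (hcyc.normalizer_le_centralizer hmin)
  rw [hPc] at hK2
  exact ⟨K, hK1, hK2⟩

lemma no12 [Finite G] (hG : NoP G) (hn : Nat.card G = 12) : False := by
  have h1 := ok_sound hG 3 (by norm_num) 13 (by rw [hn]; norm_num) (by rw [hn]; norm_num)
    (by rw [hn]; norm_num) (by rw [hn]; decide +kernel)
  have h2 := cyc_le_card (G := G)
  omega

lemma no24 [Finite G] (hG : NoP G) (hn : Nat.card G = 24) : False := by
  have : Fact (Nat.Prime 2) := ⟨Nat.prime_two⟩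
  obtain ⟨h1, h2, h3⟩ := sylow_facts hG (p := 2) (by rw [hn]; norm_num)
  set k := Nat.card (Sylow 2 G) with hk
  rw [hn] at h3
  have hk3 : k = 3 := by
    have : k ≤ 24 := Nat.le_of_dvd (by norm_num) h3
    interval_cases k <;> revert h1 h2 h3 <;> decide
  obtain ⟨P⟩ : Nonempty (Sylow 2 G) := inferInstance
  set f := MulAction.toPermHom G (Sylow 2 G) with hf
  have hidx : f.ker.index = Nat.card f.range := Subgroup.index_ker f
  have hr : Nat.card f.range ∣ 6 := by
    have e1 : Nat.card (Equiv.Perm (Sylow 2 G)) = 6 := by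
      rw [Nat.card_perm, ← hk, hk3]; rfl
    rw [← e1]
    exact Subgroup.card_subgroup_dvd_card _
  have hle : f.ker ≤ normalizer (P : Set G) := by
    intro g hg
    rw [← Sylow.smul_eq_iff_mem_normalizer]
    have := MonoidHom.mem_ker.mp hg
    have h4 := congrArg (fun e : Equiv.Perm (Sylow 2 G) => e P) this
    simpa [hf] using h4
  have h5 : (normalizer (P : Set G)).index ∣ f.ker.index := index_dvd_of_le hle
  rw [← P.card_eq_index_normalizer, ← hk, hk3] at h5
  rw [← hidx] at hr
  have h6 := f.ker.card_mul_index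
  rw [hn] at h6
  have h7 : f.ker.index ≤ 6 := Nat.le_of_dvd (by norm_num) hr
  have h8 : Nat.card f.ker = 8 ∨ Nat.card f.ker = 4 := by
    have hpos : 0 < f.ker.index := Nat.pos_of_ne_zero (by
      intro h0; rw [h0] at h6; omega)
    interval_cases hi : f.ker.index
    all_goals first
      | (exfalso; revert h5; decide)
      | (exfalso; revert hr; decide)
      | omega
  have h9 : IsPGroup 2 f.ker := by
    rcases h8 with h8 | h8
    · exact IsPGroup.of_card (n := 3) (by rw [h8]; norm_num)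
    · exact IsPGroup.of_card (n := 2) (by rw [h8]; norm_num)
  have h10 := hG 2 Nat.prime_two f.ker inferInstance h9
  rw [h10, Subgroup.card_bot] at h8
  omega

lemma no_filt [Finite G] (hG : NoP G) (n : ℕ) (hn : Nat.card G = n) (h : filt n = false) : False := by
  have := filt_sound hG
  rw [hn, h] at this
  exact Bool.false_ne_true this

lemma no132 [Finite G] (hG : NoP G) (hn : Nat.card G = 132) : False := by
  have : Fact (Nat.Prime 11) := ⟨by norm_num⟩
  obtain ⟨k, c, r, h1, h2, h3, h4, h5, _, _, _, hK⟩ := struct hG (p := 11) (by rw [hn]; norm_num)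
    (by rw [hn]; norm_num)
  rw [hn] at h1
  have hr1 : r = 1 := by
    have hk : k ∣ 132 := ⟨c * r, by rw [h1]; ring⟩
    have hk' : k ≤ 132 := Nat.le_of_dvd (by norm_num) hk
    have hk12 : k = 12 := by
      interval_cases k <;> revert h4 h5 hk <;> decide
    subst hk12
    have : c * r = 11 := by nlinarith
    obtain ⟨d, rfl⟩ := h2
    have : d * r = 1 := by nlinarith
    exact Nat.dvd_one.mp ⟨d, by rw [mul_comm]; exact this.symm⟩
  obtain ⟨K, hK1, hK2, _, _⟩ := hK hr1
  exact no12 hK1 (by omega)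

lemma c120 [Finite G] (hG : NoP G) (hn : Nat.card G = 120) : 32 ≤ cyc G := by
  have : Fact (Nat.Prime 5) := ⟨by norm_num⟩
  obtain ⟨k, c, r, h1, h2, h3, h4, h5, hord, _, hE, hK⟩ := struct hG (p := 5) (by rw [hn]; norm_num)
    (by rw [hn]; norm_num)
  rw [hn] at h1
  have hk : k ∣ 120 := ⟨c * r, by rw [h1]; ring⟩
  have hk' : k ≤ 120 := Nat.le_of_dvd (by norm_num) hk
  have hk6 : k = 6 := by
    interval_cases k <;> revert h4 h5 hk <;> decide
  subst hk6
  have hcr : c * r = 20 := by nlinarith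
  have hr1 : r ≠ 1 := by
    intro hr
    obtain ⟨K, hK1, hK2, _, _⟩ := hK hr
    exact no24 hK1 (by omega)
  have hr0 : r ≠ 0 := by rintro rfl; omega
  have hc : c ≤ 10 := by
    have : 2 ≤ r := by omega
    nlinarith
  have h8 : ∀ g : G, ¬ 8 ∣ orderOf g := by
    intro g hg
    obtain ⟨K, hK1, hK2⟩ := two_part hG 3 (by norm_num) (by rw [hn]; norm_num) g hg
    exact no_filt hK1 15 (by omega) (by decide +kernel)
  have hall : ∀ g : G, orderOf g ∣ 120 ∧ orderOf g * orderOf g ≤ 120 ∧ ¬ 8 ∣ orderOf g := by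
    intro g
    refine ⟨?_, ?_, h8 g⟩
    · rw [← hn]; exact orderOf_dvd_natCard g
    · rw [← hn]; exact orderOf_sq_le hG g
  have hle : ∀ a : ℕ, a * a ≤ 120 → a < 11 := by
    intro a ha
    by_contra hcon
    push Not at hcon
    have := Nat.mul_le_mul hcon hcon
    omega
  refine cyc_lower_two (G := G) 5 48 4 2 32 ?_ ?_ (by norm_num) (by norm_num) (by norm_num) ?_
    (by rw [hn]; norm_num) (by rw [hn]; norm_num)
  · intro g hg
    obtain ⟨e1, e2, e3⟩ := hall g
    have e4 := hle _ e2
    have key : ∀ a < 11, 5 ∣ a → a.totient ≤ 4 := by decide +kernel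
    exact key _ e4 hg
  · intro g hg
    obtain ⟨e1, e2, e3⟩ := hall g
    have e4 := hle _ e2
    have key : ∀ a < 11, ¬ 5 ∣ a → a ∣ 120 → ¬ 8 ∣ a → a.totient ≤ 2 := by decide +kernel
    exact key _ e4 hg e1 e3
  · have : Nat.card {g : G // 5 ∣ orderOf g} * 5 ≤ 6 * (c * 4) := hE
    omega

lemma c60 [Finite G] (hG : NoP G) (hn : Nat.card G = 60) : 32 ≤ cyc G := by
  classical
  have : Fact (Nat.Prime 5) := ⟨by norm_num⟩
  have : Fact (Nat.Prime 3) := ⟨by norm_num⟩
  -- p = 5
  have hE5 : (∀ g : G, 5 ∣ orderOf g → orderOf g ∣ 5) ∧ Nat.card {g : G // 5 ∣ orderOf g} ≤ 24 := by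
    obtain ⟨k, c, r, h1, h2, h3, h4, h5, hord, _, hE, hK⟩ := struct hG (p := 5)
      (by rw [hn]; norm_num) (by rw [hn]; norm_num)
    rw [hn] at h1
    have hk : k ∣ 60 := ⟨c * r, by rw [h1]; ring⟩
    have hk' : k ≤ 60 := Nat.le_of_dvd (by norm_num) hk
    have hk6 : k = 6 := by
      interval_cases k <;> revert h4 h5 hk <;> decide
    subst hk6
    have hcr : c * r = 10 := by nlinarith
    have hr1 : r ≠ 1 := by
      intro hr
      obtain ⟨K, hK1, hK2, _, _⟩ := hK hr
      exact no12 hK1 (by omega)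
    have hc : c = 5 := by
      obtain ⟨d, rfl⟩ := h2
      have hd : d * r = 2 := by nlinarith
      have hd2 : d ≤ 2 := Nat.le_of_dvd (by norm_num) ⟨r, hd.symm⟩
      interval_cases d <;> omega
    subst hc
    exact ⟨hord, by omega⟩
  have hE3 : (∀ g : G, 3 ∣ orderOf g → orderOf g ∣ 3) ∧ Nat.card {g : G // 3 ∣ orderOf g} ≤ 20 := by
    obtain ⟨k, c, r, h1, h2, h3, h4, h5, hord, _, hE, hK⟩ := struct hG (p := 3)
      (by rw [hn]; norm_num) (by rw [hn]; norm_num)
    rw [hn] at h1
    have hk : k ∣ 60 := ⟨c * r, by rw [h1]; ring⟩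
    have hk' : k ≤ 60 := Nat.le_of_dvd (by norm_num) hk
    have hk6 : k = 4 ∨ k = 10 := by
      interval_cases k <;> revert h4 h5 hk <;> decide
    have hr1 : r ≠ 1 := by
      intro hr
      obtain ⟨K, hK1, hK2, _, _⟩ := hK hr
      exact no_filt hK1 20 (by omega) (by decide +kernel)
    have hr2 : r = 2 := by
      have : r ≤ 2 := Nat.le_of_dvd (by norm_num) h3
      interval_cases r
      · omega
      · exact absurd rfl hr1
      · rfl
    subst hr2
    have hc : c = 3 ∧ k = 10 := by
      rcases hk6 with rfl | rfl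
      · omega
      · omega
    obtain ⟨rfl, rfl⟩ := hc
    exact ⟨hord, by omega⟩
  have h4 : ∀ g : G, ¬ 4 ∣ orderOf g := by
    intro g hg
    obtain ⟨K, hK1, hK2⟩ := two_part hG 2 (by norm_num) (by rw [hn]; norm_num) g hg
    exact no_filt hK1 15 (by omega) (by decide +kernel)
  have := Fintype.ofFinite G
  have key := cyc_weight (G := G)
    (fun a => 1 - (if 5 ∣ a then (3 / 4 : ℚ) else 0) - (if 3 ∣ a then (1 / 2 : ℚ) else 0)) (by
    intro g
    by_cases h5 : 5 ∣ orderOf g
    · have e := Nat.dvd_antisymm (hE5.1 g h5) h5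
      rw [e]
      norm_num [Nat.totient_prime (show Nat.Prime 5 by norm_num)]
    · by_cases h3 : 3 ∣ orderOf g
      · have e := Nat.dvd_antisymm (hE3.1 g h3) h3
        rw [e]
        norm_num [Nat.totient_prime (show Nat.Prime 3 by norm_num)]
      · simp only [h5, h3, if_false, sub_zero, one_mul]
        have e1 : orderOf g ∣ 60 := by rw [← hn]; exact orderOf_dvd_natCard g
        have e2 : orderOf g < 61 := by
          have := Nat.le_of_dvd (by norm_num) e1
          omega
        have key : ∀ a < 61, a ∣ 60 → ¬ 5 ∣ a → ¬ 3 ∣ a → ¬ 4 ∣ a → a.totient ≤ 1 := by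
          decide +kernel
        exact_mod_cast key _ e2 e1 h5 h3 (h4 g))
  simp only [Finset.sum_sub_distrib, Finset.sum_ite, Finset.sum_const, nsmul_eq_mul, mul_zero,
    add_zero] at key
  have e5 : (Finset.univ.filter (fun g : G => 5 ∣ orderOf g)).card ≤ 24 := by
    refine le_trans (le_of_eq ?_) hE5.2
    rw [Nat.card_eq_fintype_card, Fintype.card_subtype]
  have e3 : (Finset.univ.filter (fun g : G => 3 ∣ orderOf g)).card ≤ 20 := by
    refine le_trans (le_of_eq ?_) hE3.2
    rw [Nat.card_eq_fintype_card, Fintype.card_subtype]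
  have e5' : ((Finset.univ.filter (fun g : G => 5 ∣ orderOf g)).card : ℚ) ≤ 24 := by exact_mod_cast e5
  have e3' : ((Finset.univ.filter (fun g : G => 3 ∣ orderOf g)).card : ℚ) ≤ 20 := by exact_mod_cast e3
  have e60 : (Finset.univ : Finset G).card = 60 := by
    rw [Finset.card_univ, ← Nat.card_eq_fintype_card, hn]
  rw [e60] at key
  have : (32 : ℚ) ≤ cyc G := by
    push_cast at key
    linarith
  exact_mod_cast this

end Pool.Agent.H68.Cyc
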