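import Mathlib
import Pool.Agent.H68.Cyc.Special
import Pool.Agent.H68.Cyc.Good

open Subgroup

namespace Pool.Agent.H68.Cyc

lemma exch (F S : Finset ℕ) (b : ℕ) (hF : ∀ p ∈ F, p ≤ b) (hS : ∀ p ∈ S, p ∉ F → b ≤ p)
    (hc : F.card ≤ S.card) : (∏ p ∈ F, p) * b ^ (S.card - F.card) ≤ ∏ p ∈ S, p := by
  classical
  have h1 : (∏ p ∈ F \ S, p) ≤ b ^ (F \ S).card := by
    refine Finset.prod_le_pow_card _ _ _ ?_
    intro p hp
    exact hF p (Finset.mem_sdiff.mp hp).1
  have h2 : b ^ (S \ F).card ≤ ∏ p ∈ S \ F, p := by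
    refine Finset.pow_card_le_prod _ _ _ ?_
    intro p hp
    exact hS p (Finset.mem_sdiff.mp hp).1 (Finset.mem_sdiff.mp hp).2
  have h3 := Finset.prod_inter_mul_prod_sdiff F S (fun p => p)
  have h4 := Finset.prod_inter_mul_prod_sdiff S F (fun p => p)
  rw [Finset.inter_comm S F] at h4
  have h5 := Finset.card_sdiff_add_card_inter F S
  have h6 := Finset.card_sdiff_add_card_inter S F
  rw [Finset.inter_comm S F] at h6
  have h7 : (S \ F).card = (F \ S).card + (S.card - F.card) := by omega
  rw [← h3, ← h4]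
  calc (∏ p ∈ F ∩ S, p) * (∏ p ∈ F \ S, p) * b ^ (S.card - F.card)
      ≤ (∏ p ∈ F ∩ S, p) * b ^ (F \ S).card * b ^ (S.card - F.card) := by gcongr
    _ = (∏ p ∈ F ∩ S, p) * b ^ (S \ F).card := by rw [h7, pow_add]; ring
    _ ≤ _ := by gcongr

lemma prod_le (n : ℕ) (hn : n ≠ 0) : ∏ p ∈ n.primeFactors, p ≤ n :=
  Nat.le_of_dvd (Nat.pos_of_ne_zero hn) (Nat.prod_primeFactors_dvd n)

/-- lower bound for numbers with many prime divisors -/
lemma big (n : ℕ) (hn : n ≠ 0) (h : 7 ≤ n.primeFactors.card) :
    4 ^ (n.primeFactors.card + 2) ≤ n := by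
  have h1 := exch {2, 3, 5, 7, 11} n.primeFactors 13 (by decide) (by
    intro p hp hpF
    have hpp := Nat.prime_of_mem_primeFactors hp
    by_contra hcon
    push Not at hcon
    interval_cases p <;> revert hpF hpp <;> decide) (by
    have : ({2, 3, 5, 7, 11} : Finset ℕ).card = 5 := by decide
    omega)
  have h2 : (∏ p ∈ ({2, 3, 5, 7, 11} : Finset ℕ), p) = 2310 := by decide
  have h3 : ({2, 3, 5, 7, 11} : Finset ℕ).card = 5 := by decide
  rw [h2, h3] at h1
  refine le_trans ?_ (h1.trans (prod_le n hn))
  obtain ⟨m, hm⟩ := Nat.exists_eq_add_of_le h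
  rw [hm]
  have e : 7 + m - 5 = m + 2 := by omega
  rw [e, show 7 + m + 2 = m + 9 by ring, pow_add, pow_add]
  have h4 : 4 ^ m ≤ 13 ^ m := Nat.pow_le_pow_left (by norm_num) m
  have h5 : (4 : ℕ) ^ 9 ≤ 2310 * 13 ^ 2 := by norm_num
  calc 4 ^ m * 4 ^ 9 ≤ 13 ^ m * (2310 * 13 ^ 2) := Nat.mul_le_mul h4 h5
    _ = _ := by ring

/-- bound for the prime divisors of a number with `t` prime divisors -/
lemma pf_bound (n t X : ℕ) (F : Finset ℕ) (b : ℕ) (hn : n ≠ 0) (hnX : n < X)
    (ht : n.primeFactors.card = t + 1) (hF : F.card = t) (hFb : ∀ p ∈ F, p ≤ b)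
    (hb : ∀ p, p.Prime → p ∉ F → b ≤ p) (q : ℕ) (hq : q.Prime) (hqn : q ∣ n) :
    q * (∏ p ∈ F, p) < X := by
  have hmem : q ∈ n.primeFactors := Nat.mem_primeFactors.mpr ⟨hq, hqn, hn⟩
  have h1 := exch F (n.primeFactors.erase q) b hFb (by
    intro p hp hpF
    exact hb p (Nat.prime_of_mem_primeFactors (Finset.mem_of_mem_erase hp)) hpF) (by
    rw [Finset.card_erase_of_mem hmem, ht, hF]; omega)
  rw [Finset.card_erase_of_mem hmem, ht, hF] at h1
  have e : t + 1 - 1 - t = 0 := by omega
  rw [e, pow_zero, mul_one] at h1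
  have h2 := Finset.mul_prod_erase n.primeFactors (fun p => p) hmem
  calc q * (∏ p ∈ F, p) ≤ q * ∏ p ∈ n.primeFactors.erase q, p := Nat.mul_le_mul_left _ h1
    _ = ∏ p ∈ n.primeFactors, p := h2
    _ ≤ n := prod_le n hn
    _ < X := hnX

lemma cntf_eq (L : List ℕ) (hL : L.Nodup) (hp : ∀ p ∈ L, p.Prime) (n : ℕ) (hn : n ≠ 0)
    (h : ∀ p, p.Prime → p ∣ n → p ∈ L) : cntf L n = n.primeFactors.card := by
  classical
  have h1 : ∀ l : List ℕ, cntf l n = (l.filter (fun p => p ∣ n)).length := by
    intro l
    induction l with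
    | nil => rfl
    | cons p l ih =>
      rw [cntf, List.filter_cons, ih]
      by_cases hd : p ∣ n
      · have : Nat.beq (Nat.mod n p) 0 = true := by
          have h0 : Nat.mod n p = 0 := Nat.mod_eq_zero_of_dvd hd
          rw [h0]; rfl
        simp [this, hd]
      · have : Nat.beq (Nat.mod n p) 0 = false := by
          cases hh : Nat.beq (Nat.mod n p) 0 with
          | true => exact absurd (Nat.dvd_of_mod_eq_zero (Nat.eq_of_beq_eq_true hh)) hd
          | false => rfl
        simp [this, hd]
  rw [h1, ← List.toFinset_card_of_nodup (hL.filter _)]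
  congr 1
  ext p
  simp only [List.toFinset_filter, Finset.mem_filter, List.mem_toFinset, decide_eq_true_eq,
    Nat.mem_primeFactors]
  constructor
  · rintro ⟨h2, h3⟩
    exact ⟨hp p h2, h3, hn⟩
  · rintro ⟨h2, h3, _⟩
    exact ⟨h p h2 h3, h3⟩

lemma PL_complete (q : ℕ) (hq : q.Prime) (h : q < 171) : q ∈ PL := by
  interval_cases q <;> first | decide | (exfalso; revert hq; norm_num)

variable {G : Type*} [Group G]

lemma good_sound [Finite G] (hG : NoP G) (hs : ¬ Group.IsSolvable G) (L : List ℕ) (t : ℕ)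
    (hlt : Nat.card G < 257 * 257)
    (hLP : ∀ p, p.Prime → p ∣ Nat.card G → p ∈ PL)
    (hcnt : cntf L (Nat.card G) = t) (ht : (Nat.card G).primeFactors.card = t)
    (hg : good L t (Nat.card G) = true) : 2 ^ (t + 2) ≤ cyc G := by
  set n := Nat.card G with hn
  unfold good at hg
  have h0 : Nat.beq (cntf L n) t = true := by rw [hcnt]; exact Nat.beq_refl t
  rw [h0, cond_true] at hg
  simp only [Bool.or_eq_true] at hg
  rcases hg with (((((((hg | hg) | hg) | hg) | hg) | hg) | hg) | hg)
  · -- squarefree
    exfalso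
    apply hs
    rw [List.all_eq_true] at hg
    have hsq : Squarefree (Nat.card G) := by
      rw [Nat.squarefree_iff_prime_squarefree]
      intro p hp hpp
      have h1 := hg p (hLP p hp ((Dvd.intro _ rfl).trans hpp))
      have h2 : n % (p * p) = 0 := Nat.mod_eq_zero_of_dvd hpp
      rw [h2] at h1
      simp at h1
    have := IsZGroup.of_squarefree hsq
    infer_instance
  · exfalso
    have := filt_sound hG
    rw [← hn] at this
    rw [this] at hg
    simp at hg
  · exact (no24 hG (by simpa using hg)).elim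
  · have h60 : n = 60 := by simpa using hg
    have : t = 3 := by rw [← ht, h60]; decide +kernel
    subst this
    exact c60 hG h60
  · have h120 : n = 120 := by simpa using hg
    have : t = 3 := by rw [← ht, h120]; decide +kernel
    subst this
    exact c120 hG h120
  · exact (no132 hG (by simpa using hg)).elim
  · have h1 := Nat.le_of_ble_eq_true hg
    have hbd : ∀ g : G, (orderOf g).totient ≤ mx (fun _ => true) n n := by
      intro g
      exact mx_spec _ _ _ _ (order_lt hG hlt g) (orderOf_pos g).ne' (orderOf_dvd_natCard g)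
        (orderOf_sq_le hG g) rfl
    have h2 := cyc_lower_one (mx (fun _ => true) n n) hbd
    have h3 : 0 < mx (fun _ => true) n n :=
      lt_of_lt_of_le (Nat.totient_pos.mpr (orderOf_pos (1 : G))) (hbd 1)
    exact Nat.le_of_mul_le_mul_right (h1.trans h2) h3
  · rw [List.any_eq_true] at hg
    obtain ⟨p, hp, h1⟩ := hg
    simp only [Bool.and_eq_true, beq_iff_eq, bne_iff_ne] at h1
    obtain ⟨⟨h2, h3⟩, h4⟩ := h1
    exact ok_sound hG p (PL_prime p hp) _ hlt (Nat.dvd_of_mod_eq_zero h2)
      (fun h => h3 (Nat.mod_eq_zero_of_dvd h)) h4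

/-- groups of large order -/
lemma large [Finite G] (hG : NoP G) (t : ℕ) (h : 4 ^ (t + 2) ≤ Nat.card G) :
    2 ^ (t + 2) ≤ cyc G := by
  have h1 := cyc_lower_one (G := G) (Nat.sqrt (Nat.card G)) (by
    intro g
    refine (Nat.totient_le _).trans ?_
    rw [Nat.le_sqrt]
    exact orderOf_sq_le hG g)
  have h2 : 2 ^ (t + 2) ≤ Nat.sqrt (Nat.card G) := by
    rw [Nat.le_sqrt, ← mul_pow]
    exact h
  have h3 := Nat.sqrt_le (Nat.card G)
  have hpos : 0 < Nat.sqrt (Nat.card G) := lt_of_lt_of_le (by positivity) h2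
  exact h2.trans (Nat.le_of_mul_le_mul_right (h3.trans h1) hpos)

theorem nop_bound [Finite G] (hG : NoP G) (hs : ¬ Group.IsSolvable G) :
    2 ^ ((Nat.card G).primeFactors.card + 2) ≤ cyc G := by
  set n := Nat.card G with hn
  have hn0 : n ≠ 0 := Nat.card_pos.ne'
  obtain ⟨t, ht⟩ : ∃ t, t = n.primeFactors.card := ⟨_, rfl⟩
  rw [← ht]
  by_cases hbig : 4 ^ (t + 2) ≤ n
  · exact large hG t hbig
  push Not at hbig
  have ht7 : t < 7 := by
    by_contra hcon
    push Not at hcon
    have := big n hn0 (ht ▸ hcon)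
    rw [← ht] at this
    omega
  have hpr : ∀ p : ℕ, p.Prime → ∀ q ∈ ([] : List ℕ), True := fun _ _ _ _ => trivial
  interval_cases t
  · -- t = 0
    exfalso
    have h1 : n.primeFactors = ∅ := Finset.card_eq_zero.mp ht.symm
    rw [Nat.primeFactors_eq_empty] at h1
    have h2 : n = 1 := by omega
    have : Subsingleton G := (Nat.card_eq_one_iff_unique.mp h2).1
    exact hs inferInstance
  · -- t = 1
    exfalso
    obtain ⟨p, hp⟩ := Finset.card_eq_one.mp ht.symm
    have hpp : p.Prime := Nat.prime_of_mem_primeFactors (n := n) (by rw [hp]; simp)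
    have := Fact.mk hpp
    have h1 : IsPGroup p G := by
      refine IsPGroup.of_card (n := n.factorization p) ?_
      rw [← hn]
      conv_lhs => rw [← Nat.prod_factorization_pow_eq_self hn0]
      rw [Finsupp.prod, Nat.support_factorization, hp, Finset.prod_singleton]
    have := h1.isNilpotent
    exact hs inferInstance
  · -- t = 2
    have hb := pf_bound n 1 256 {2} 3 hn0 hbig ht.symm (by decide) (by decide) (by
      intro p hp hpF
      by_contra hcon
      push Not at hcon
      interval_cases p <;> revert hpF hp <;> decide)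
    have hin : ∀ p, p.Prime → p ∣ n → p ∈ PL := by
      intro p hp hpn
      have := hb p hp hpn
      rw [show (∏ p ∈ ({2} : Finset ℕ), p) = 2 by decide] at this
      exact PL_complete p hp (by omega)
    refine good_sound hG hs PL 2 (by omega) hin ?_ ht.symm ?_
    · rw [cntf_eq PL (by decide) PL_prime n hn0 hin, ht]
    · have := loop_spec PL 2 1 256 0 good_2 n hbig
      simpa using this
  · -- t = 3
    have hb := pf_bound n 2 1024 {2, 3} 5 hn0 hbig ht.symm (by decide) (by decide) (by
      intro p hp hpF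
      by_contra hcon
      push Not at hcon
      interval_cases p <;> revert hpF hp <;> decide)
    have hin : ∀ p, p.Prime → p ∣ n → p ∈ PL := by
      intro p hp hpn
      have := hb p hp hpn
      rw [show (∏ p ∈ ({2, 3} : Finset ℕ), p) = 6 by decide] at this
      exact PL_complete p hp (by omega)
    refine good_sound hG hs PL 3 (by omega) hin ?_ ht.symm ?_
    · rw [cntf_eq PL (by decide) PL_prime n hn0 hin, ht]
    · have := loop_spec PL 3 1 1024 0 good_3 n hbig
      simpa using this
  · -- t = 4
    have hb := pf_bound n 3 4096 {2, 3, 5} 7 hn0 hbig ht.symm (by decide) (by decide) (by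
      intro p hp hpF
      by_contra hcon
      push Not at hcon
      interval_cases p <;> revert hpF hp <;> decide)
    rw [show (∏ p ∈ ({2, 3, 5} : Finset ℕ), p) = 30 by decide] at hb
    have hin : ∀ p, p.Prime → p ∣ n → p ∈ PL := by
      intro p hp hpn
      have := hb p hp hpn
      exact PL_complete p hp (by omega)
    have hin2 : ∀ p, p.Prime → p ∣ n → p ∈ PL.take 32 := by
      intro p hp hpn
      have h1 := hb p hp hpn
      have h2 := hin p hp hpn
      have h3 : ∀ p ∈ PL, p * 30 < 4096 → p ∈ PL.take 32 := by decide +kernel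
      exact h3 p h2 h1
    refine good_sound hG hs (PL.take 32) 4 (by omega) hin ?_ ht.symm ?_
    · rw [cntf_eq (PL.take 32) (by decide) (fun p hp => PL_prime p (List.mem_of_mem_take hp)) n hn0
        hin2, ht]
    · have := loop_spec (PL.take 32) 4 1 4096 0 good_4 n hbig
      simpa using this
  · -- t = 5
    have hb := pf_bound n 4 16384 {2, 3, 5, 7} 11 hn0 hbig ht.symm (by decide) (by decide) (by
      intro p hp hpF
      by_contra hcon
      push Not at hcon
      interval_cases p <;> revert hpF hp <;> decide)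
    rw [show (∏ p ∈ ({2, 3, 5, 7} : Finset ℕ), p) = 210 by decide] at hb
    have hin : ∀ p, p.Prime → p ∣ n → p ∈ PL := by
      intro p hp hpn
      have := hb p hp hpn
      exact PL_complete p hp (by omega)
    have hin2 : ∀ p, p.Prime → p ∣ n → p ∈ PL.take 22 := by
      intro p hp hpn
      have h1 := hb p hp hpn
      have h2 := hin p hp hpn
      have h3 : ∀ p ∈ PL, p * 210 < 16384 → p ∈ PL.take 22 := by decide +kernel
      exact h3 p h2 h1
    refine good_sound hG hs (PL.take 22) 5 (by omega) hin ?_ ht.symm ?_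
    · rw [cntf_eq (PL.take 22) (by decide) (fun p hp => PL_prime p (List.mem_of_mem_take hp)) n hn0
        hin2, ht]
    · rw [← hn]
      rcases lt_or_ge n 4096 with h1 | h1
      · have := loop_spec (PL.take 22) 5 1 4096 0 good_5a n h1
        simpa using this
      rcases lt_or_ge n 8192 with h2 | h2
      · have := loop_spec (PL.take 22) 5 1 4096 4096 good_5b (n - 4096) (by omega)
        rwa [show 4096 + (n - 4096) * 1 = n by omega] at this
      rcases lt_or_ge n 12288 with h3 | h3
      · have := loop_spec (PL.take 22) 5 1 4096 8192 good_5c (n - 8192) (by omega)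
        rwa [show 8192 + (n - 8192) * 1 = n by omega] at this
      · have := loop_spec (PL.take 22) 5 1 4096 12288 good_5d (n - 12288) (by omega)
        rwa [show 12288 + (n - 12288) * 1 = n by omega] at this
  · -- t = 6
    have hb := pf_bound n 5 65536 {2, 3, 5, 7, 11} 13 hn0 hbig ht.symm (by decide) (by decide) (by
      intro p hp hpF
      by_contra hcon
      push Not at hcon
      interval_cases p <;> revert hpF hp <;> decide)
    rw [show (∏ p ∈ ({2, 3, 5, 7, 11} : Finset ℕ), p) = 2310 by decide] at hb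
    have hin : ∀ p, p.Prime → p ∣ n → p ∈ PL := by
      intro p hp hpn
      have := hb p hp hpn
      exact PL_complete p hp (by omega)
    have hin2 : ∀ p, p.Prime → p ∣ n → p ∈ PL.take 10 := by
      intro p hp hpn
      have h1 := hb p hp hpn
      have h2 := hin p hp hpn
      have h3 : ∀ p ∈ PL, p * 2310 < 65536 → p ∈ PL.take 10 := by decide +kernel
      exact h3 p h2 h1
    -- 2, 3, 5, 7 divide n
    have hdiv : ∀ q ∈ ({2, 3, 5, 7} : Finset ℕ), q ∣ n := by
      intro q hq
      by_contra hcon
      have h1 := exch (({2, 3, 5, 7, 11, 13} : Finset ℕ).erase q) n.primeFactors 17 (by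
        intro p hp
        have h2 : ∀ p ∈ ({2, 3, 5, 7, 11, 13} : Finset ℕ), p ≤ 17 := by decide
        exact h2 p (Finset.mem_of_mem_erase hp)) (by
        intro p hp hpF
        have hpp := Nat.prime_of_mem_primeFactors hp
        have hpq : p ≠ q := by
          rintro rfl
          exact hcon (Nat.dvd_of_mem_primeFactors hp)
        have hp2 : p ∉ ({2, 3, 5, 7, 11, 13} : Finset ℕ) := by
          intro h
          exact hpF (Finset.mem_erase.mpr ⟨hpq, h⟩)
        by_contra hlt
        push Not at hlt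
        interval_cases p <;> revert hp2 hpp <;> decide) (by
        rw [← ht]
        fin_cases hq <;> decide)
      have h3 := h1.trans (prod_le n hn0)
      rw [← ht] at h3
      have h4 : 65536 ≤ (∏ p ∈ ({2, 3, 5, 7, 11, 13} : Finset ℕ).erase q, p) *
          17 ^ (6 - (({2, 3, 5, 7, 11, 13} : Finset ℕ).erase q).card) := by
        fin_cases hq <;> decide
      have h5 : n < 65536 := hbig
      omega
    have h2 : 2 ∣ n := hdiv 2 (by decide)
    have h3 : 3 ∣ n := hdiv 3 (by decide)
    have h5 : 5 ∣ n := hdiv 5 (by decide)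
    have h7 : 7 ∣ n := hdiv 7 (by decide)
    have h210 : 210 ∣ n := by omega
    obtain ⟨m, hm⟩ := h210
    have hm313 : m < 313 := by
      have : n < 65536 := hbig
      omega
    refine good_sound hG hs (PL.take 10) 6 (by omega) hin ?_ ht.symm ?_
    · rw [cntf_eq (PL.take 10) (by decide) (fun p hp => PL_prime p (List.mem_of_mem_take hp)) n hn0
        hin2, ht]
    · rw [← hn]
      have := loop_spec (PL.take 10) 6 210 313 0 good_6 m hm313
      rwa [show 0 + m * 210 = n by omega] at this

end Pool.Agent.H68.Cyc
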